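import Pool.Agent.TH671.SD.KMain
import Pool.Agent.TH671.SK.PadS

/-!
# Tensors of order three
-/

set_option autoImplicit false
set_option linter.unusedSectionVars false

open Filter Topology

namespace Pool.Agent.TH671.SD

open Pool.Agent.H826R3.SM Pool.Agent.W329.AR Pool.Agent.TH671.AS Pool.Agent.TH671.SH
  Pool.Agent.TH671.SK

section three

variable {K : Type} [Field K] {ι : Type}

/-- A tensor of order three as a function on `Fin 3 → ι`. -/
def t3 (T : ι → ι → ι → K) : (Fin 3 → ι) → K := fun a => T (a 0) (a 1) (a 2)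

theorem TRk_t3 (T : ι → ι → ι → K) (r : ℕ) : TRk (t3 T) r ↔ Rk T r := by
  constructor
  · rintro ⟨c, x, hx⟩
    refine ⟨fun l a => c l * x l 0 a, fun l a => x l 1 a, fun l a => x l 2 a, fun a b d => ?_⟩
    have h1 : T a b d = ∑ l, c l * ∏ j, x l j (![a, b, d] j) := hx ![a, b, d]
    rw [h1]
    refine Finset.sum_congr rfl fun l _ => ?_
    rw [Fin.prod_univ_three]
    change c l * (x l 0 a * x l 1 b * x l 2 d) = _
    ring
  · rintro ⟨u, v, w, h⟩
    refine ⟨fun _ => 1, fun l => ![u l, v l, w l], fun a => ?_⟩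
    simp only [t3, Fin.prod_univ_three, Matrix.cons_val_zero, Matrix.cons_val_one,
      Matrix.cons_val, one_mul]
    exact h _ _ _

theorem tpow_t3 (T : ι → ι → ι → K) (n : ℕ) : tpow (t3 T) n = t3 (kpow T n) := rfl

theorem tarank_t3 (T : ι → ι → ι → K) : tarank (t3 T) = arank T := by
  unfold tarank arank
  congr 1
  funext n
  unfold trk
  congr 3
  ext r
  change TRk (tpow (t3 T) (n + 1)) r ↔ Rk (kpow T (n + 1)) r
  rw [tpow_t3, TRk_t3]

variable [Fintype ι] [DecidableEq ι]

theorem mflat_t3 {T : ι → ι → ι → K} (hT : Conc T) : Fintype.card ι ≤ mflat (t3 T) := by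
  classical
  refine le_trans ?_ (rank_flat_le_mflat (t3 T) {0})
  rcases isEmpty_or_nonempty ι with h0 | ⟨⟨i0⟩⟩
  · simp
  rw [Matrix.rank_eq_finrank_span_row]
  let g : (ι × ι → K) →ₗ[K] ((Fin 3 → ι) → K) := LinearMap.funLeft K K fun b => (b 1, b 2)
  have hg : Function.Injective g := by
    refine LinearMap.funLeft_injective_of_surjective K K _ fun q => ?_
    exact ⟨![i0, q.1, q.2], by simp⟩
  have h1 : LinearIndependent K fun a : ι => g fun q => T a q.1 q.2 :=
    hT.x.map' g (LinearMap.ker_eq_bot.2 hg)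
  have h2 : Module.finrank K (Submodule.span K (Set.range fun a : ι => g fun q => T a q.1 q.2)) =
      Fintype.card ι := finrank_span_eq_card h1
  rw [← h2]
  refine Submodule.finrank_mono (Submodule.span_mono ?_)
  rintro _ ⟨a, rfl⟩
  refine ⟨fun _ => a, ?_⟩
  funext b
  simp [Matrix.row, flat, t3, g, LinearMap.funLeft_apply]

theorem mflat_t3_eq {T : ι → ι → ι → K} (hT : Conc T) (h : arank T = Fintype.card ι) :
    tarank (t3 T) = mflat (t3 T) := by
  refine le_antisymm ?_ (mflat_le_tarank _)
  rw [tarank_t3, h]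
  exact_mod_cast mflat_t3 hT

theorem mflat_t3_le (T : ι → ι → ι → K) : mflat (t3 T) ≤ Fintype.card ι := by
  classical
  refine Finset.sup_le fun S _ => ?_
  -- one of the two sides of the flattening depends on at most one argument
  have key : ∀ (j : Fin 3) (M : Matrix (Fin 3 → ι) (Fin 3 → ι) K),
      (∀ a a' b, a j = a' j → M a b = M a' b) → M.rank ≤ Fintype.card ι := by
    intro j M hM
    rcases isEmpty_or_nonempty ι with h0 | ⟨⟨i0⟩⟩
    · refine (Matrix.rank_le_card_width _).trans ?_
      simp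
    have h1 : M = (Matrix.of fun (a : Fin 3 → ι) (i : ι) => if a j = i then (1 : K) else 0) *
        Matrix.of fun (i : ι) (b : Fin 3 → ι) => M (fun _ => i) b := by
      ext a b
      rw [Matrix.mul_apply, Finset.sum_eq_single (a j)]
      · simp only [Matrix.of_apply, if_true, one_mul]
        exact hM _ _ _ rfl
      · intro i _ hi
        simp only [Matrix.of_apply]
        rw [if_neg (fun h => hi h.symm), zero_mul]
      · intro h
        exact absurd (Finset.mem_univ _) h
    rw [h1]
    exact (Matrix.rank_mul_le_left _ _).trans (Matrix.rank_le_card_width _)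
  have hS : (∃ j, ∀ i ∈ S, i = j) ∨ ∃ j, ∀ i, i ∉ S → i = j := by
    revert S
    decide
  rcases hS with ⟨j, hj⟩ | ⟨j, hj⟩
  · refine key j _ fun a a' b h => ?_
    simp only [flat, Matrix.of_apply]
    congr 1
    funext i
    split_ifs with hi
    · rw [hj i hi, h]
    · rfl
  · rw [← Matrix.rank_transpose]
    refine key j _ fun a a' b h => ?_
    simp only [flat, Matrix.of_apply, Matrix.transpose_apply]
    congr 1
    funext i
    split_ifs with hi
    · rfl
    · rw [hj i hi, h]

end three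

/-- Q1 implies that all concise tensors of order three have minimal asymptotic rank. -/
theorem conc_minimal_of_Q1 (K : Type) [Field K]
    (hQ : ∀ (A : Type) [CommRing A] [Algebra K A] [Module.Finite K A] [Nontrivial A], QOne K A)
    (v : ℕ) (T : Fin v → Fin v → Fin v → K) (hv : 1 ≤ v) (hT : Conc T) : arank T = v := by
  have h0 : t3 T ≠ 0 := by
    intro h0
    have h1 := mflat_t3 hT
    rw [h0] at h1
    have : mflat (0 : (Fin 3 → Fin v) → K) = 0 := by
      refine Nat.eq_zero_of_le_zero (Finset.sup_le fun S _ => ?_)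
      have h0 : flat (0 : (Fin 3 → Fin v) → K) S = 0 := rfl
      rw [h0, Matrix.rank_zero]
    rw [this, Fintype.card_fin] at h1
    omega
  have h1 := minimal_of_Q1 K hQ (t3 T) h0
  rw [tarank_t3] at h1
  have h2 := mflat_t3 hT
  have h3 := mflat_t3_le T
  rw [h1]
  rw [Fintype.card_fin] at h2 h3
  exact_mod_cast le_antisymm h3 h2

/-- **Unconditional examples.** -/
theorem examples (K : Type) [Field K] : ∃ D : ℕ, 1 ≤ D ∧
    ∀ v c : ℕ, 1 ≤ v → ∀ V : Fin v → Fin v → Fin v → K, Conc V → (D : ℝ) * arank V ≤ c →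
      ∀ ε : ℝ, 0 < ε → ∀ᶠ N : ℕ in atTop,
        Tendsto (ratT (tpow (t3 (dsum V (wten K c))) N) ε) atTop (𝓝 0) := by
  obtain ⟨D, hD, hmain⟩ := arank_dsum_wten2 (K := K)
  refine ⟨D, hD, fun v c hv V hV hc => ?_⟩
  obtain ⟨hconc, har⟩ := hmain v c hv V hV hc
  have hcard : Fintype.card (Fin v ⊕ (Fin 1 ⊕ (Fin c ⊕ Fin c))) = v + (2 * c + 1) := by
    simp only [Fintype.card_sum, Fintype.card_fin]
    omega
  have h1 := mflat_t3_eq hconc (by rw [har, hcard]; push_cast; ring)
  refine (minimal_iff _ ?_).1 h1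
  have h2 := mflat_t3 hconc
  rw [hcard] at h2
  omega

end Pool.Agent.TH671.SD
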