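import Mathlib

/-!
# Tensors of arbitrary order: rank, Kronecker powers, asymptotic rank, flattenings
-/

set_option autoImplicit false
set_option linter.unusedSectionVars false

open Finset Filter Topology

namespace Pool.Agent.TH671.SD

section defs

variable {K : Type} [Field K] {m : ℕ} {ι : Type}

/-- The tensor `T` of order `m` is a linear combination of `r` product tensors. -/
def TRk (T : (Fin m → ι) → K) (r : ℕ) : Prop :=
  ∃ (c : Fin r → K) (x : Fin r → Fin m → ι → K), ∀ a, T a = ∑ l, c l * ∏ j, x l j (a j)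

/-- The rank. -/
noncomputable def trk (T : (Fin m → ι) → K) : ℕ := sInf {r : ℕ | TRk T r}

/-- The `n`-th Kronecker power, a tensor of the same order. -/
def tpow (T : (Fin m → ι) → K) (n : ℕ) : (Fin m → (Fin n → ι)) → K :=
  fun a => ∏ s, T fun j => a j s

/-- The asymptotic rank. -/
noncomputable def tarank (T : (Fin m → ι) → K) : ℝ :=
  ⨅ n : ℕ, (trk (tpow T (n + 1)) : ℝ) ^ ((1 : ℝ) / ((n : ℝ) + 1))

/-- The flattening of `T` with the factors in `S` as rows and the other factors as columns. -/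
def flat (T : (Fin m → ι) → K) (S : Finset (Fin m)) : Matrix (Fin m → ι) (Fin m → ι) K :=
  Matrix.of fun a b => T fun j => if j ∈ S then a j else b j

/-- The largest rank of a flattening of `T`. -/
noncomputable def mflat [Fintype ι] (T : (Fin m → ι) → K) : ℕ :=
  univ.sup fun S : Finset (Fin m) => (flat T S).rank

end defs

section basic

variable {K : Type} [Field K] {m : ℕ} {ι : Type}

theorem TRk.of_fintype {κ : Type} [Fintype κ] {T : (Fin m → ι) → K} (c : κ → K)
    (x : κ → Fin m → ι → K) (h : ∀ a, T a = ∑ l, c l * ∏ j, x l j (a j)) :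
    TRk T (Fintype.card κ) := by
  classical
  let e := (Fintype.equivFin κ).symm
  refine ⟨fun l => c (e l), fun l => x (e l), fun a => ?_⟩
  rw [h a, ← Equiv.sum_comp e]

theorem TRk.mono {T : (Fin m → ι) → K} {r s : ℕ} (h : TRk T r) (hrs : r ≤ s) : TRk T s := by
  obtain ⟨c, x, hx⟩ := h
  obtain ⟨d, rfl⟩ := Nat.exists_eq_add_of_le hrs
  have := TRk.of_fintype (κ := Fin r ⊕ Fin d) (T := T) (Sum.elim c fun _ => 0)
    (Sum.elim x fun _ _ _ => 0) (fun a => by rw [hx a, Fintype.sum_sum_type]; simp)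
  simpa using this

theorem TRk.triv [Fintype ι] [DecidableEq ι] (T : (Fin m → ι) → K) :
    TRk T (Fintype.card (Fin m → ι)) := by
  refine TRk.of_fintype (κ := Fin m → ι) T (fun b j i => if i = b j then 1 else 0) fun a => ?_
  rw [Finset.sum_eq_single a]
  · simp
  · intro b _ hb
    obtain ⟨j, hj⟩ : ∃ j, b j ≠ a j := by
      by_contra hcon
      push Not at hcon
      exact hb (funext hcon)
    rw [Finset.prod_eq_zero (Finset.mem_univ j) (if_neg (fun h => hj h.symm)), mul_zero]
  · intro h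
    exact absurd (Finset.mem_univ _) h

theorem TRk.comp {κ : Type} {T : (Fin m → ι) → K} {r : ℕ} (h : TRk T r) (f : κ → ι) :
    TRk (fun a : Fin m → κ => T fun j => f (a j)) r := by
  obtain ⟨c, x, hx⟩ := h
  exact ⟨c, fun l j i => x l j (f i), fun a => hx _⟩

theorem TRk.congr {T T' : (Fin m → ι) → K} {r : ℕ} (h : TRk T r) (hT : ∀ a, T a = T' a) :
    TRk T' r := by
  obtain ⟨c, x, hx⟩ := h
  exact ⟨c, x, fun a => by rw [← hT, hx]⟩

theorem TRk.mul {ι' : Type} {T : (Fin m → ι) → K} {T' : (Fin m → ι') → K} {r s : ℕ}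
    (h : TRk T r) (h' : TRk T' s) :
    TRk (fun a : Fin m → ι × ι' => T (fun j => (a j).1) * T' fun j => (a j).2) (r * s) := by
  obtain ⟨c, x, hx⟩ := h
  obtain ⟨c', x', hx'⟩ := h'
  have := TRk.of_fintype (κ := Fin r × Fin s)
    (T := fun a : Fin m → ι × ι' => T (fun j => (a j).1) * T' fun j => (a j).2)
    (fun l => c l.1 * c' l.2) (fun l j i => x l.1 j i.1 * x' l.2 j i.2) (fun a => by
      rw [hx, hx', Finset.sum_mul_sum, Fintype.sum_prod_type]
      refine Finset.sum_congr rfl fun l _ => Finset.sum_congr rfl fun l' _ => ?_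
      rw [Finset.prod_mul_distrib]
      ring)
  simpa using this

theorem TRk.tpow {T : (Fin m → ι) → K} {r : ℕ} (h : TRk T r) (n : ℕ) :
    TRk (tpow T n) (r ^ n) := by
  classical
  obtain ⟨c, x, hx⟩ := h
  have := TRk.of_fintype (κ := Fin n → Fin r) (T := SD.tpow T n)
    (fun t => ∏ s, c (t s)) (fun t j i => ∏ s, x (t s) j (i s)) (fun a => by
      unfold SD.tpow
      calc ∏ s, T (fun j => a j s) = ∏ s, ∑ l, c l * ∏ j, x l j (a j s) :=
            Finset.prod_congr rfl fun s _ => hx _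
        _ = ∑ t : Fin n → Fin r, ∏ s, (c (t s) * ∏ j, x (t s) j (a j s)) := by
            rw [Finset.prod_univ_sum, Fintype.piFinset_univ]
        _ = _ := by
            refine Finset.sum_congr rfl fun t _ => ?_
            rw [Finset.prod_mul_distrib, Finset.prod_comm])
  simpa using this

theorem tpow_add {T : (Fin m → ι) → K} {a b r s : ℕ} (h : TRk (tpow T a) r)
    (h' : TRk (tpow T b) s) : TRk (tpow T (a + b)) (r * s) := by
  refine ((TRk.mul h h').comp (fun x : Fin (a + b) → ι =>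
    ((fun i => x (Fin.castAdd b i)), fun i => x (Fin.natAdd a i)))).congr fun x => ?_
  simp only [tpow]
  rw [Fin.prod_univ_add]

theorem tpow_mul {T : (Fin m → ι) → K} {k r : ℕ} (h : TRk (tpow T k) r) (q : ℕ) :
    TRk (tpow T (k * q)) (r ^ q) := by
  induction q with
  | zero =>
    have := TRk.of_fintype (κ := Unit) (T := tpow T (k * 0)) (fun _ => 1) (fun _ _ _ => 1)
      (fun a => by simp [tpow])
    simpa using this
  | succ q ih =>
    have := tpow_add ih h
    rwa [← pow_succ] at this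

theorem tpow_tpow {T : (Fin m → ι) → K} {k n r : ℕ} (h : TRk (tpow (tpow T k) n) r) :
    TRk (tpow T (n * k)) r := by
  refine (h.comp (fun (a : Fin (n * k) → ι) t s => a (finProdFinEquiv (t, s)))).congr fun a => ?_
  simp only [tpow]
  rw [← Equiv.prod_comp finProdFinEquiv, Fintype.prod_prod_type]

theorem tpow_tpow' {T : (Fin m → ι) → K} {k n r : ℕ} (h : TRk (tpow T (n * k)) r) :
    TRk (tpow (tpow T k) n) r := by
  refine (h.comp (fun (a : Fin n → Fin k → ι) t => a (finProdFinEquiv.symm t).1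
    (finProdFinEquiv.symm t).2)).congr fun a => ?_
  simp only [tpow]
  rw [← Equiv.prod_comp finProdFinEquiv, Fintype.prod_prod_type]
  simp

theorem trk_le {T : (Fin m → ι) → K} {r : ℕ} (h : TRk T r) : trk T ≤ r := Nat.sInf_le h

theorem trk_spec [Finite ι] (T : (Fin m → ι) → K) : TRk T (trk T) := by
  classical
  have := Fintype.ofFinite ι
  exact Nat.sInf_mem (s := {r : ℕ | TRk T r}) ⟨_, TRk.triv T⟩

theorem tarank_nonneg (T : (Fin m → ι) → K) : 0 ≤ tarank T := by
  unfold tarank
  exact Real.iInf_nonneg fun n => by positivity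

theorem tarank_le_root (T : (Fin m → ι) → K) (N : ℕ) (hN : 1 ≤ N) :
    tarank T ≤ (trk (tpow T N) : ℝ) ^ ((1 : ℝ) / (N : ℝ)) := by
  obtain ⟨n, rfl⟩ : ∃ n, N = n + 1 := ⟨N - 1, by omega⟩
  unfold tarank
  have := ciInf_le (f := fun n : ℕ => (trk (tpow T (n + 1)) : ℝ) ^
    ((1 : ℝ) / ((n : ℝ) + 1))) ⟨0, by rintro _ ⟨n, rfl⟩; positivity⟩ n
  push_cast
  exact this

theorem tarank_pow_le [Finite ι] (T : (Fin m → ι) → K) (k : ℕ) (hk : 1 ≤ k) :
    tarank T ^ k ≤ tarank (tpow T k) := by
  refine le_ciInf fun n => ?_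
  have hN : 1 ≤ (n + 1) * k := Nat.mul_pos (Nat.succ_pos n) hk
  have h1 := tarank_le_root T ((n + 1) * k) hN
  have h2 : trk (tpow T ((n + 1) * k)) ≤ trk (tpow (tpow T k) (n + 1)) :=
    trk_le (tpow_tpow (trk_spec _))
  have h3 : (trk (tpow T ((n + 1) * k)) : ℝ) ≤ (trk (tpow (tpow T k) (n + 1)) : ℝ) := by
    exact_mod_cast h2
  calc tarank T ^ k ≤ ((trk (tpow T ((n + 1) * k)) : ℝ) ^
        ((1 : ℝ) / (((n + 1) * k : ℕ) : ℝ))) ^ k := pow_le_pow_left₀ (tarank_nonneg T) h1 k
    _ = (trk (tpow T ((n + 1) * k)) : ℝ) ^ ((1 : ℝ) / ((n : ℝ) + 1)) := by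
        rw [← Real.rpow_natCast, ← Real.rpow_mul (by positivity)]
        congr 1
        have hk0 : (k : ℝ) ≠ 0 := by positivity
        push_cast
        field_simp
    _ ≤ _ := Real.rpow_le_rpow (by positivity) h3 (by positivity)

/-- The ranks of the large Kronecker powers. -/
theorem trk_growth [Finite ι] (T : (Fin m → ι) → K) (η : ℝ) (hη : 0 < η) :
    ∀ᶠ N : ℕ in atTop, (trk (tpow T N) : ℝ) ≤ (tarank T + η) ^ N := by
  classical
  have := Fintype.ofFinite ι
  have ha := tarank_nonneg T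
  have hlt : tarank T < tarank T + η / 2 := by linarith
  obtain ⟨n0, hn0⟩ := exists_lt_of_ciInf_lt hlt
  set b := tarank T + η / 2 with hb
  have hb0 : 0 < b := by linarith
  set k := n0 + 1 with hk
  set r0 := trk (tpow T k) with hr0
  have hr : TRk (tpow T k) r0 := trk_spec _
  have hle : (r0 : ℝ) ≤ b ^ k := by
    have h1 : ((r0 : ℝ) ^ ((1 : ℝ) / ((n0 : ℝ) + 1))) ^ k ≤ b ^ k :=
      pow_le_pow_left₀ (by positivity) hn0.le k
    have h2 : ((r0 : ℝ) ^ ((1 : ℝ) / ((n0 : ℝ) + 1))) ^ k = r0 := by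
      rw [← Real.rpow_natCast, ← Real.rpow_mul (by positivity)]
      have : (1 : ℝ) / ((n0 : ℝ) + 1) * (k : ℝ) = 1 := by
        rw [hk]
        push_cast
        field_simp
      rw [this, Real.rpow_one]
    rwa [h2] at h1
  set cc : ℕ := ∑ i ∈ Finset.range k, trk (tpow T i) with hcc
  have hmin : 0 < min 1 b := lt_min one_pos hb0
  set C : ℝ := cc * ((min 1 b) ^ k)⁻¹ with hC
  have hC0 : 0 ≤ C := by positivity
  have hbd : ∀ N : ℕ, (trk (tpow T N) : ℝ) ≤ C * b ^ N := by
    intro N
    have h1 := tpow_mul hr (N / k)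
    have h2 : TRk (tpow T (N % k)) cc := (trk_spec _).mono
      (Finset.single_le_sum (f := fun i => trk (tpow T i)) (fun _ _ => Nat.zero_le _)
        (Finset.mem_range.2 (Nat.mod_lt _ (Nat.succ_pos _))))
    have h3 := tpow_add h1 h2
    rw [Nat.div_add_mod] at h3
    have h4 : (trk (tpow T N) : ℝ) ≤ (r0 : ℝ) ^ (N / k) * cc := by exact_mod_cast trk_le h3
    have h5 : (r0 : ℝ) ^ (N / k) ≤ b ^ (k * (N / k)) := by
      rw [pow_mul]
      exact pow_le_pow_left₀ (by positivity) hle _
    have h6 : b ^ (k * (N / k)) * (min 1 b) ^ k ≤ b ^ N := by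
      conv_rhs => rw [← Nat.div_add_mod N k, pow_add]
      refine mul_le_mul_of_nonneg_left ?_ (by positivity)
      calc (min 1 b) ^ k ≤ (min 1 b) ^ (N % k) :=
            pow_le_pow_of_le_one hmin.le (min_le_left _ _) (Nat.mod_lt _ (Nat.succ_pos _)).le
        _ ≤ b ^ (N % k) := pow_le_pow_left₀ hmin.le (min_le_right _ _) _
    have h7 : b ^ (k * (N / k)) ≤ b ^ N * ((min 1 b) ^ k)⁻¹ := by
      rw [← div_eq_mul_inv, le_div_iff₀ (by positivity)]
      exact h6
    calc (trk (tpow T N) : ℝ) ≤ (r0 : ℝ) ^ (N / k) * cc := h4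
      _ ≤ (b ^ N * ((min 1 b) ^ k)⁻¹) * cc :=
          mul_le_mul_of_nonneg_right (h5.trans h7) (Nat.cast_nonneg _)
      _ = C * b ^ N := by rw [hC]; ring
  have hq : 1 < (tarank T + η) / b := by
    rw [one_lt_div hb0]
    linarith
  have hev := (tendsto_pow_atTop_atTop_of_one_lt hq).eventually (eventually_ge_atTop C)
  filter_upwards [hev] with N hN
  rw [div_pow, le_div_iff₀ (by positivity)] at hN
  exact (hbd N).trans hN

end basic

section flattenings

variable {K : Type} [Field K]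

theorem exists_rank_fact {α β : Type} [Fintype α] [DecidableEq α] [Fintype β] [DecidableEq β]
    (M : Matrix α β K) : ∃ (r : ℕ) (B : Matrix α (Fin r) K) (C : Matrix (Fin r) β K)
      (L : Matrix (Fin r) α K) (R : Matrix β (Fin r) K),
      M.rank = r ∧ M = B * C ∧ L * B = 1 ∧ C * R = 1 := by
  let f := Matrix.toLin' M
  have hr : Module.finrank K (LinearMap.range f) = M.rank := by
    rw [Matrix.rank, ← Matrix.toLin'_apply']
  let e : LinearMap.range f ≃ₗ[K] (Fin M.rank → K) := LinearEquiv.ofFinrankEq _ _ (by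
    rw [hr]; simp)
  let c : (β → K) →ₗ[K] (Fin M.rank → K) := e.toLinearMap ∘ₗ f.rangeRestrict
  let b : (Fin M.rank → K) →ₗ[K] (α → K) := (LinearMap.range f).subtype ∘ₗ e.symm.toLinearMap
  have hb : LinearMap.ker b = ⊥ := by
    rw [LinearMap.ker_eq_bot]
    exact (Submodule.injective_subtype _).comp e.symm.injective
  have hc : LinearMap.range c = ⊤ := by
    rw [LinearMap.range_eq_top]
    exact e.surjective.comp (LinearMap.surjective_rangeRestrict f)
  obtain ⟨l, hl⟩ := LinearMap.exists_leftInverse_of_injective b hb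
  obtain ⟨r, hr⟩ := LinearMap.exists_rightInverse_of_surjective c hc
  have hf : f = b ∘ₗ c := by
    refine LinearMap.ext fun v => ?_
    simp [b, c]
  refine ⟨M.rank, LinearMap.toMatrix' b, LinearMap.toMatrix' c, LinearMap.toMatrix' l,
    LinearMap.toMatrix' r, rfl, ?_, ?_, ?_⟩
  · rw [← LinearMap.toMatrix'_comp, ← hf, LinearMap.toMatrix'_toLin']
  · rw [← LinearMap.toMatrix'_comp, hl, LinearMap.toMatrix'_id]
  · rw [← LinearMap.toMatrix'_comp, hr, LinearMap.toMatrix'_id]

/-- The `n`-th Kronecker power of a matrix. -/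
def mpow {α β : Type} (M : Matrix α β K) (n : ℕ) : Matrix (Fin n → α) (Fin n → β) K :=
  Matrix.of fun a b => ∏ s, M (a s) (b s)

theorem mpow_mul {α β γ : Type} [Fintype β] [DecidableEq β] (M : Matrix α β K)
    (M' : Matrix β γ K) (n : ℕ) : mpow (M * M') n = mpow M n * mpow M' n := by
  classical
  ext a b
  simp only [mpow, Matrix.of_apply, Matrix.mul_apply]
  rw [Finset.prod_univ_sum, Fintype.piFinset_univ]
  exact Finset.sum_congr rfl fun t _ => Finset.prod_mul_distrib

theorem mpow_one {α : Type} [DecidableEq α] (n : ℕ) :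
    mpow (1 : Matrix α α K) n = 1 := by
  classical
  ext a b
  simp only [mpow, Matrix.of_apply, Matrix.one_apply]
  by_cases h : a = b
  · subst h
    simp
  · rw [if_neg h]
    obtain ⟨j, hj⟩ := Function.ne_iff.1 h
    exact Finset.prod_eq_zero (Finset.mem_univ j) (if_neg hj)

theorem rank_mpow {α β : Type} [Fintype α] [DecidableEq α] [Fintype β] [DecidableEq β]
    (M : Matrix α β K) (n : ℕ) : (mpow M n).rank = M.rank ^ n := by
  obtain ⟨r, B, C, L, R, hr, hM, hL, hR⟩ := exists_rank_fact M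
  rw [hr]
  refine le_antisymm ?_ ?_
  · rw [hM, mpow_mul]
    refine (Matrix.rank_mul_le_left _ _).trans ((Matrix.rank_le_card_width _).trans ?_)
    simp
  · have h1 : mpow L n * mpow M n * mpow R n = 1 := by
      rw [← mpow_mul, ← mpow_mul, hM, ← Matrix.mul_assoc, hL, Matrix.one_mul, hR]
      exact mpow_one n
    have h2 : (mpow L n * mpow M n * mpow R n).rank = r ^ n := by
      rw [h1, Matrix.rank_one]
      simp
    rw [← h2]
    exact (Matrix.rank_mul_le_left _ _).trans (Matrix.rank_mul_le_right _ _)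

variable {m : ℕ} {ι : Type}

/-- exchanging the order of the arguments -/
def swapE (m n : ℕ) (ι : Type) : (Fin m → Fin n → ι) ≃ (Fin n → Fin m → ι) where
  toFun a s j := a j s
  invFun a j s := a s j
  left_inv _ := rfl
  right_inv _ := rfl

theorem flat_tpow (T : (Fin m → ι) → K) (S : Finset (Fin m)) (n : ℕ) :
    flat (tpow T n) S = (mpow (flat T S) n).submatrix (swapE m n ι) (swapE m n ι) := by
  ext a b
  simp only [flat, tpow, mpow, Matrix.of_apply, Matrix.submatrix_apply, swapE, Equiv.coe_fn_mk]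
  refine Finset.prod_congr rfl fun s _ => ?_
  congr 1
  funext j
  split_ifs <;> rfl

variable [Fintype ι] [DecidableEq ι]

theorem rank_flat_tpow (T : (Fin m → ι) → K) (S : Finset (Fin m)) (n : ℕ) :
    (flat (tpow T n) S).rank = (flat T S).rank ^ n := by
  rw [flat_tpow, Matrix.rank_submatrix, rank_mpow]

theorem rank_flat_le_mflat (T : (Fin m → ι) → K) (S : Finset (Fin m)) :
    (flat T S).rank ≤ mflat T :=
  Finset.le_sup (f := fun S : Finset (Fin m) => (flat T S).rank) (Finset.mem_univ S)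

theorem exists_mflat (T : (Fin m → ι) → K) : ∃ S, (flat T S).rank = mflat T := by
  obtain ⟨S, -, hS⟩ := Finset.exists_mem_eq_sup (univ : Finset (Finset (Fin m)))
    ⟨∅, Finset.mem_univ _⟩ fun S => (flat T S).rank
  exact ⟨S, hS.symm⟩

theorem mflat_tpow (T : (Fin m → ι) → K) (n : ℕ) : mflat (tpow T n) = mflat T ^ n := by
  refine le_antisymm (Finset.sup_le fun S _ => ?_) ?_
  · rw [rank_flat_tpow]
    exact Nat.pow_le_pow_left (rank_flat_le_mflat T S) n
  · obtain ⟨S, hS⟩ := exists_mflat T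
    rw [← hS, ← rank_flat_tpow]
    exact rank_flat_le_mflat _ S

theorem rank_flat_le_of_TRk {T : (Fin m → ι) → K} {r : ℕ} (h : TRk T r) (S : Finset (Fin m)) :
    (flat T S).rank ≤ r := by
  classical
  obtain ⟨c, x, hx⟩ := h
  have h1 : flat T S = (Matrix.of fun (a : Fin m → ι) (l : Fin r) => c l * ∏ j ∈ S, x l j (a j)) *
      (Matrix.of fun (l : Fin r) (b : Fin m → ι) => ∏ j ∈ Sᶜ, x l j (b j)) := by
    ext a b
    simp only [flat, Matrix.of_apply, Matrix.mul_apply]
    rw [hx]
    refine Finset.sum_congr rfl fun l _ => ?_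
    rw [mul_assoc, ← Finset.prod_mul_prod_compl S]
    congr 2
    · exact Finset.prod_congr rfl fun j hj => by rw [if_pos hj]
    · exact Finset.prod_congr rfl fun j hj => by rw [if_neg (Finset.mem_compl.1 hj)]
  rw [h1]
  refine (Matrix.rank_mul_le_left _ _).trans ((Matrix.rank_le_card_width _).trans ?_)
  simp

theorem mflat_le_trk (T : (Fin m → ι) → K) : mflat T ≤ trk T :=
  Finset.sup_le fun S _ => rank_flat_le_of_TRk (trk_spec T) S

/-- The asymptotic rank is at least each flattening rank. -/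
theorem mflat_le_tarank (T : (Fin m → ι) → K) : (mflat T : ℝ) ≤ tarank T := by
  refine le_ciInf fun n => ?_
  have h1 := mflat_le_trk (tpow T (n + 1))
  rw [mflat_tpow] at h1
  have h2 : ((mflat T : ℝ)) ^ (n + 1) ≤ (trk (tpow T (n + 1)) : ℝ) := by exact_mod_cast h1
  calc (mflat T : ℝ) = ((mflat T : ℝ) ^ (n + 1)) ^ ((1 : ℝ) / ((n : ℝ) + 1)) := by
        rw [← Real.rpow_natCast, ← Real.rpow_mul (by positivity)]
        push_cast
        rw [mul_one_div_cancel (by positivity), Real.rpow_one]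
    _ ≤ _ := Real.rpow_le_rpow (by positivity) h2 (by positivity)

theorem one_le_mflat {T : (Fin m → ι) → K} (hT : T ≠ 0) : 1 ≤ mflat T := by
  obtain ⟨a, ha⟩ := Function.ne_iff.1 hT
  refine le_trans ?_ (rank_flat_le_mflat T ∅)
  rw [Nat.one_le_iff_ne_zero]
  intro h0
  apply ha
  obtain ⟨r, B, C, L, R, hr, hM, -, -⟩ := exists_rank_fact (flat T ∅)
  have hr0 : r = 0 := by rw [← hr, h0]
  subst hr0
  have h2 := congrFun (congrFun hM a) a
  rw [Matrix.mul_apply] at h2
  simpa [flat] using h2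

end flattenings

end Pool.Agent.TH671.SD
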