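import Pool.Agent.H826R3.SM.Dual
import Pool.Agent.TH671.SD.KT

/-!
# The apolar algebra of a multilinear form

`mform T` is the multilinear form of the tensor `T` as a dual form. The dimension of its apolar
algebra is the sum of the ranks of all flattenings of `T`.
-/

set_option autoImplicit false
set_option linter.unusedSectionVars false

namespace Pool.Agent.TH671.SD

open Pool.Agent.H826R3.SM
open MvPolynomial

section exps

variable {m : ℕ} {ι : Type}

/-- exponent vector of the monomial `∏_{j ∈ S} x_{j, a_j}` -/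
noncomputable def mexpS (S : Finset (Fin m)) (a : Fin m → ι) : (Fin m × ι) →₀ ℕ :=
  ∑ j ∈ S, Finsupp.single (j, a j) 1

variable [DecidableEq ι]

theorem mexpS_apply (S : Finset (Fin m)) (a : Fin m → ι) (j : Fin m) (i : ι) :
    mexpS S a (j, i) = if j ∈ S ∧ a j = i then 1 else 0 := by
  classical
  unfold mexpS
  rw [Finsupp.finsetSum_apply]
  simp only [Finsupp.single_apply, Prod.mk.injEq]
  by_cases h : j ∈ S ∧ a j = i
  · rw [if_pos h, Finset.sum_eq_single j]
    · rw [if_pos ⟨rfl, h.2⟩]
    · intro b _ hb
      rw [if_neg (fun h' => hb h'.1)]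
    · intro h'
      exact absurd h.1 h'
  · rw [if_neg h]
    refine Finset.sum_eq_zero fun b hb => ?_
    rw [if_neg]
    rintro ⟨rfl, h2⟩
    exact h ⟨hb, h2⟩

theorem mexpS_add (S : Finset (Fin m)) (a b : Fin m → ι) :
    mexpS S a + mexpS Sᶜ b = mexpS Finset.univ fun j => if j ∈ S then a j else b j := by
  classical
  ext ⟨j, i⟩
  rw [Finsupp.add_apply, mexpS_apply, mexpS_apply, mexpS_apply]
  by_cases h : j ∈ S
  · simp [h]
  · simp [h]

theorem mexpS_inj {a b : Fin m → ι} (h : mexpS Finset.univ a = mexpS Finset.univ b) : a = b := by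
  funext j
  have h1 := DFunLike.congr_fun h (j, a j)
  rw [mexpS_apply, mexpS_apply, if_pos ⟨Finset.mem_univ _, rfl⟩] at h1
  by_contra hne
  rw [if_neg (fun h2 => hne h2.2.symm)] at h1
  exact one_ne_zero h1

/-- an exponent vector below a multilinear one -/
theorem eq_mexpS_of_le {g : (Fin m × ι) →₀ ℕ} {a : Fin m → ι}
    (h : g ≤ mexpS Finset.univ a) : ∃ S : Finset (Fin m), g = mexpS Sᶜ a := by
  classical
  refine ⟨Finset.univ.filter fun j => g (j, a j) = 0, ?_⟩
  ext ⟨j, i⟩
  rw [mexpS_apply]
  have h1 := h (j, i)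
  rw [mexpS_apply] at h1
  by_cases hi : a j = i
  · subst hi
    rw [if_pos ⟨Finset.mem_univ _, rfl⟩] at h1
    by_cases h0 : g (j, a j) = 0
    · simp [h0]
    · simp only [Finset.mem_compl, Finset.mem_filter, Finset.mem_univ, true_and, h0,
        not_false_iff, and_self, if_true]
      omega
  · rw [if_neg (fun h2 => hi h2.2)] at h1
    rw [if_neg (fun h2 => hi h2.2)]
    omega

/-- complementary part -/
theorem eq_mexpS_of_add {f : (Fin m × ι) →₀ ℕ} {S : Finset (Fin m)} {a b : Fin m → ι}
    (h : f + mexpS Sᶜ b = mexpS Finset.univ a) : f = mexpS S a ∧ ∀ j ∉ S, a j = b j := by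
  classical
  have hab : ∀ j ∉ S, a j = b j := by
    intro j hj
    have h1 := DFunLike.congr_fun h (j, b j)
    rw [Finsupp.add_apply, mexpS_apply, mexpS_apply,
      if_pos ⟨Finset.mem_compl.2 hj, rfl⟩] at h1
    by_contra hne
    rw [if_neg (fun h2 => hne h2.2)] at h1
    omega
  refine ⟨?_, hab⟩
  ext ⟨j, i⟩
  have h1 := DFunLike.congr_fun h (j, i)
  rw [Finsupp.add_apply, mexpS_apply, mexpS_apply] at h1
  rw [mexpS_apply]
  by_cases hj : j ∈ S
  · simp only [Finset.mem_compl, hj, not_true_eq_false, false_and, if_false, add_zero,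
      Finset.mem_univ, true_and] at h1
    simp only [hj, true_and]
    exact h1
  · simp only [Finset.mem_compl, hj, not_false_iff, true_and, Finset.mem_univ, hab j hj] at h1
    simp only [hj, false_and, if_false]
    omega

theorem mexpS_disj {S S' : Finset (Fin m)} {a b c : Fin m → ι}
    (h : mexpS S a + mexpS S'ᶜ b = mexpS Finset.univ c) : S = S' := by
  classical
  obtain ⟨h1, -⟩ := eq_mexpS_of_add h
  ext j
  have h2 := DFunLike.congr_fun h1 (j, a j)
  have h3 := DFunLike.congr_fun h1 (j, c j)
  rw [mexpS_apply, mexpS_apply] at h2 h3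
  by_cases hj : j ∈ S <;> by_cases hj' : j ∈ S' <;> simp_all

end exps

section form

variable {K : Type} [Field K] {m : ℕ} {ι : Type} [Fintype ι] [DecidableEq ι]

/-- The multilinear form `∑_a T(a) x_{1, a_1} ⋯ x_{m, a_m}` as a dual form: the linear functional
`F ↦ ∑_a T(a) · (coefficient of x_{1, a_1} ⋯ x_{m, a_m} in F)`. -/
noncomputable def mform (T : (Fin m → ι) → K) : MvPolynomial (Fin m × ι) K →ₗ[K] K :=
  ∑ a : Fin m → ι, T a • MvPolynomial.lcoeff K (mexpS Finset.univ a)

theorem mform_apply (T : (Fin m → ι) → K) (F : MvPolynomial (Fin m × ι) K) :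
    mform T F = ∑ a : Fin m → ι, T a * coeff (mexpS Finset.univ a) F := by
  unfold mform
  rw [LinearMap.sum_apply]
  rfl

theorem mform_monomial (T : (Fin m → ι) → K) (a : Fin m → ι) (r : K) :
    mform T (monomial (mexpS Finset.univ a) r) = T a * r := by
  rw [mform_apply, Finset.sum_eq_single a]
  · rw [coeff_monomial, if_pos rfl]
  · intro b _ hb
    rw [coeff_monomial, if_neg (fun h => hb (mexpS_inj h).symm), mul_zero]
  · intro h
    exact absurd (Finset.mem_univ _) h

theorem mform_monomial_ne (T : (Fin m → ι) → K) {d : (Fin m × ι) →₀ ℕ} (r : K)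
    (h : ∀ a, d ≠ mexpS Finset.univ a) : mform T (monomial d r) = 0 := by
  rw [mform_apply]
  refine Finset.sum_eq_zero fun a _ => ?_
  rw [coeff_monomial, if_neg (h a), mul_zero]

theorem degree_mexpS (S : Finset (Fin m)) (a : Fin m → ι) : (mexpS S a).degree = S.card := by
  unfold mexpS
  rw [map_sum]
  simp

theorem isDualForm_mform (T : (Fin m → ι) → K) : IsDualForm m (mform T) := by
  intro n hn F hF
  rw [mform_apply]
  refine Finset.sum_eq_zero fun a _ => ?_
  rw [hF.coeff_eq_zero, mul_zero]
  rw [degree_mexpS, Finset.card_univ, Fintype.card_fin]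
  exact fun h => hn h.symm

/-- the contractions -/
noncomputable def kap (T : (Fin m → ι) → K) (S : Finset (Fin m)) :
    MvPolynomial (Fin m × ι) K →ₗ[K] ((Fin m → ι) → K) :=
  LinearMap.pi fun b => mform T ∘ₗ LinearMap.mulRight K (monomial (mexpS Sᶜ b) 1)

theorem kap_apply (T : (Fin m → ι) → K) (S : Finset (Fin m)) (F : MvPolynomial (Fin m × ι) K)
    (b : Fin m → ι) : kap T S F b = mform T (F * monomial (mexpS Sᶜ b) 1) := rfl

theorem kap_mon (T : (Fin m → ι) → K) (S S' : Finset (Fin m)) (a : Fin m → ι) :
    kap T S' (monomial (mexpS S a) 1) = if S = S' then (flat T S').row a else 0 := by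
  funext b
  rw [kap_apply, monomial_mul, one_mul]
  by_cases h : S = S'
  · subst h
    rw [if_pos rfl, mexpS_add, mform_monomial, mul_one]
    rfl
  · rw [if_neg h, mform_monomial_ne]
    · rfl
    · intro c hc
      exact h (mexpS_disj hc)

theorem kap_mem (T : (Fin m → ι) → K) (S : Finset (Fin m)) (F : MvPolynomial (Fin m × ι) K) :
    kap T S F ∈ Submodule.span K (Set.range (flat T S).row) := by
  classical
  induction F using MvPolynomial.induction_on' with
  | add x y hx hy =>
    rw [map_add]
    exact Submodule.add_mem _ hx hy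
  | monomial f r =>
    by_cases h : ∃ a, f = mexpS S a
    · obtain ⟨a, rfl⟩ := h
      have h1 : (monomial (mexpS S a) r : MvPolynomial (Fin m × ι) K) =
          r • monomial (mexpS S a) 1 := by
        rw [smul_monomial, smul_eq_mul, mul_one]
      rw [h1, map_smul, kap_mon, if_pos rfl]
      exact Submodule.smul_mem _ _ (Submodule.subset_span ⟨a, rfl⟩)
    · have h1 : kap T S (monomial f r) = 0 := by
        funext b
        rw [kap_apply, monomial_mul, mform_monomial_ne]
        · rfl
        · intro c hc
          exact h ⟨c, (eq_mexpS_of_add hc).1⟩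
      rw [h1]
      exact Submodule.zero_mem _

theorem mem_annOf_iff_kap (T : (Fin m → ι) → K) (F : MvPolynomial (Fin m × ι) K) :
    F ∈ annOf (mform T) ↔ ∀ S, kap T S F = 0 := by
  classical
  constructor
  · intro h S
    funext b
    exact h _
  · intro h G
    induction G using MvPolynomial.induction_on' with
    | add x y hx hy => rw [mul_add, map_add, hx, hy, add_zero]
    | monomial g r =>
      by_cases hg : ∃ a : Fin m → ι, g ≤ mexpS Finset.univ a
      · obtain ⟨a, ha⟩ := hg
        obtain ⟨S, rfl⟩ := eq_mexpS_of_le ha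
        have h1 : (monomial (mexpS Sᶜ a) r : MvPolynomial (Fin m × ι) K) =
            r • monomial (mexpS Sᶜ a) 1 := by
          rw [smul_monomial, smul_eq_mul, mul_one]
        have h2 := congrFun (h S) a
        rw [kap_apply] at h2
        rw [h1, mul_smul_comm, map_smul, h2]
        simp
      · rw [mform_apply]
        refine Finset.sum_eq_zero fun a _ => ?_
        rw [coeff_mul_monomial', if_neg (fun h' => hg ⟨a, h'⟩), mul_zero]

/-- the contractions together -/
noncomputable def kapAll (T : (Fin m → ι) → K) : MvPolynomial (Fin m × ι) K →ₗ[K]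
    (∀ S : Finset (Fin m), Submodule.span K (Set.range (flat T S).row)) :=
  LinearMap.pi fun S => (kap T S).codRestrict _ (kap_mem T S)

theorem kapAll_surjective (T : (Fin m → ι) → K) : Function.Surjective (kapAll T) := by
  classical
  intro w
  have h1 : ∀ S : Finset (Fin m), ∃ c : (Fin m → ι) → K,
      ∑ a, c a • (flat T S).row a = (w S : (Fin m → ι) → K) := by
    intro S
    exact (Submodule.mem_span_range_iff_exists_fun K).1 (w S).2
  choose c hc using h1
  refine ⟨∑ S, ∑ a, c S a • monomial (mexpS S a) 1, ?_⟩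
  funext S'
  apply Subtype.ext
  change kap T S' _ = _
  rw [← hc S', map_sum, Finset.sum_eq_single S']
  · rw [map_sum]
    refine Finset.sum_congr rfl fun a _ => ?_
    rw [map_smul, kap_mon, if_pos rfl]
  · intro S _ hS
    rw [map_sum]
    refine Finset.sum_eq_zero fun a _ => ?_
    rw [map_smul, kap_mon, if_neg hS, smul_zero]
  · intro h
    exact absurd (Finset.mem_univ _) h

/-- The apolar algebra is isomorphic, as a vector space, to the sum of the row spaces of all
flattenings. -/
noncomputable def apolarEquiv (T : (Fin m → ι) → K) : ApolarAlg (mform T) ≃ₗ[K]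
    (∀ S : Finset (Fin m), Submodule.span K (Set.range (flat T S).row)) := by
  refine (Submodule.Quotient.restrictScalarsEquiv K (annOf (mform T))).symm.trans
    ((Submodule.quotEquivOfEq _ _ ?_).trans
      (LinearMap.quotKerEquivOfSurjective (kapAll T) (kapAll_surjective T)))
  ext F
  rw [Submodule.restrictScalars_mem, mem_annOf_iff_kap, LinearMap.mem_ker]
  constructor
  · intro h
    funext S
    apply Subtype.ext
    exact h S
  · intro h S
    exact congrArg Subtype.val (congrFun h S)

theorem finite_mform (T : (Fin m → ι) → K) : Module.Finite K (ApolarAlg (mform T)) :=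
  Module.Finite.equiv (apolarEquiv T).symm

/-- **The degree.** The dimension of the apolar algebra of the multilinear form of `T` is the sum of
the ranks of all flattenings of `T`. -/
theorem finrank_mform (T : (Fin m → ι) → K) :
    Module.finrank K (ApolarAlg (mform T)) = ∑ S : Finset (Fin m), (flat T S).rank := by
  rw [(apolarEquiv T).finrank_eq, Module.finrank_pi_fintype]
  refine Finset.sum_congr rfl fun S _ => ?_
  rw [Matrix.rank_eq_finrank_span_row]

theorem finrank_mform_le (T : (Fin m → ι) → K) :
    Module.finrank K (ApolarAlg (mform T)) ≤ 2 ^ m * mflat T := by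
  rw [finrank_mform]
  refine (Finset.sum_le_card_nsmul _ _ (mflat T) fun S _ => rank_flat_le_mflat T S).trans ?_
  simp

theorem mflat_le_finrank (T : (Fin m → ι) → K) :
    mflat T ≤ Module.finrank K (ApolarAlg (mform T)) := by
  rw [finrank_mform]
  refine Finset.sup_le fun S _ => ?_
  exact Finset.single_le_sum (f := fun S => (flat T S).rank) (fun _ _ => Nat.zero_le _)
    (Finset.mem_univ S)

/-- the functional of the apolar algebra -/
noncomputable def mfun (T : (Fin m → ι) → K) : ApolarAlg (mform T) →ₗ[K] K :=
  (Submodule.liftQ ((annOf (mform T)).restrictScalars K) (mform T) (fun F hF => by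
    have h1 : mform T (F * 1) = 0 := hF 1
    rwa [mul_one] at h1)) ∘ₗ
      (Submodule.Quotient.restrictScalarsEquiv K (annOf (mform T))).symm.toLinearMap

theorem mfun_mk (T : (Fin m → ι) → K) (F : MvPolynomial (Fin m × ι) K) :
    mfun T (Ideal.Quotient.mk _ F) = mform T F := rfl

theorem mfun_prod (T : (Fin m → ι) → K) (a : Fin m → ι) :
    mfun T (∏ j, Ideal.Quotient.mk (annOf (mform T)) (X (j, a j))) = T a := by
  rw [← map_prod, mfun_mk]
  have h1 : (∏ j, X (j, a j) : MvPolynomial (Fin m × ι) K) =
      monomial (mexpS Finset.univ a) 1 := by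
    unfold mexpS
    rw [monomial_sum_one]
    rfl
  rw [h1, mform_monomial, mul_one]

end form

end Pool.Agent.TH671.SD
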