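import Pool.Agent.H826R3.SM.Lower3
import Pool.Agent.TH671.SH.Degen
import Pool.Agent.TH671.SD.KT

/-!
# Tensors of the multiplication of a finite algebra and smoothable schemes

If the `n`-th power of a finite scheme `Spec A` lies in a smoothable scheme of degree `D` then the
asymptotic rank of the `n`-th Kronecker power of each tensor
`V (a₁, …, aₘ) = γ (p₁(a₁) ⋯ pₘ(aₘ))`, `pⱼ(a) ∈ A`, `γ ∈ A^*`, is at most `D`.
-/

set_option autoImplicit false
set_option linter.unusedSectionVars false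

open Filter Topology

namespace Pool.Agent.TH671.SD

open scoped TensorProduct PowerSeries
open Pool.Agent.H826R3.SM

/-- upper bounds for the asymptotic rank from bounds up to polynomial factors -/
theorem tarank_le_of_TRk {K : Type} [Field K] {m : ℕ} {ι : Type} {T : (Fin m → ι) → K}
    (r k c : ℕ) (hT : ∀ n : ℕ, TRk (tpow T (n + 1)) (c * (n + 1) ^ k * r ^ (n + 1))) :
    tarank T ≤ r := by
  unfold tarank
  have ht := Pool.Agent.TH671.SH.tendsto_root' k ((c : ℝ) + 1) (by positivity) (r : ℝ)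
    (by positivity)
  refine ge_of_tendsto' ht fun n => ?_
  refine (ciInf_le ⟨0, ?_⟩ n).trans ?_
  · rintro _ ⟨n, rfl⟩
    positivity
  · refine Real.rpow_le_rpow (by positivity) ?_ (by positivity)
    have h1 : trk (tpow T (n + 1)) ≤ c * (n + 1) ^ k * r ^ (n + 1) := trk_le (hT n)
    calc (trk (tpow T (n + 1)) : ℝ)
        ≤ ((c * (n + 1) ^ k * r ^ (n + 1) : ℕ) : ℝ) := by exact_mod_cast h1
      _ = (c : ℝ) * ((n : ℝ) + 1) ^ k * (r : ℝ) ^ (n + 1) := by push_cast; ring
      _ ≤ _ := by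
          gcongr
          linarith

section ext

variable {k : Type} [Field k] {O : Type} [CommRing O] [Algebra k⟦X⟧ O]

/-- An approximate decomposition of the tensor `W` over the `k⟦X⟧`-algebra `O`. -/
def TExt (k : Type) [Field k] (O : Type) [CommRing O] [Algebra k⟦X⟧ O] {m : ℕ} {α : Type}
    (T : Type) [Fintype T] (W : (Fin m → α) → k) (h : ℕ) : Prop :=
  ∃ (C : T → O) (A : T → Fin m → α → O) (P : (Fin m → α) → k⟦X⟧), ∀ a,
    (∑ t : T, C t * ∏ j, A t j (a j) = algebraMap k⟦X⟧ O (PowerSeries.X ^ h * P a)) ∧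
    PowerSeries.constantCoeff (P a) = W a

theorem TExt.pow {m : ℕ} {α T : Type} [Fintype T] {W : (Fin m → α) → k} {h : ℕ}
    (H : TExt k O T W h) (N : ℕ) : TExt k O (Fin N → T) (tpow W N) (N * h) := by
  classical
  obtain ⟨C, A, P, hh⟩ := H
  refine ⟨fun t => ∏ s, C (t s), fun t j a => ∏ s, A (t s) j (a s),
    fun a => ∏ s, P (fun j => a j s), fun a => ⟨?_, ?_⟩⟩
  · calc ∑ t : Fin N → T, (∏ s, C (t s)) * ∏ j, ∏ s, A (t s) j (a j s)
        = ∑ t : Fin N → T, ∏ s, (C (t s) * ∏ j, A (t s) j (a j s)) := by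
          refine Finset.sum_congr rfl fun t _ => ?_
          rw [Finset.prod_mul_distrib, Finset.prod_comm]
      _ = ∏ s, ∑ t : T, (C t * ∏ j, A t j (a j s)) := by
          rw [Finset.prod_univ_sum, Fintype.piFinset_univ]
      _ = ∏ s, algebraMap k⟦X⟧ O (PowerSeries.X ^ h * P (fun j => a j s)) :=
          Finset.prod_congr rfl fun s _ => (hh _).1
      _ = _ := by
          rw [← map_prod, Finset.prod_mul_distrib, Finset.prod_const, Finset.card_univ,
            Fintype.card_fin, ← pow_mul, mul_comm h N]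
  · rw [map_prod]
    exact Finset.prod_congr rfl fun s _ => (hh _).2

variable [Module.Finite k⟦X⟧ O] [Module.Free k⟦X⟧ O]

/-- truncation -/
theorem exists_trunc (h : ℕ) (x : O) : ∃ y : O,
    x = (∑ z : Fin (Module.finrank k⟦X⟧ O) × Fin (h + 1),
      (PowerSeries.C (PowerSeries.coeff (z.2 : ℕ) ((Module.finBasis k⟦X⟧ O).repr x z.1)) *
        PowerSeries.X ^ (z.2 : ℕ) : k⟦X⟧) • Module.finBasis k⟦X⟧ O z.1) +
      (PowerSeries.X ^ (h + 1) : k⟦X⟧) • y := by
  set b := Module.finBasis k⟦X⟧ O with hb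
  have hf : ∀ f : k⟦X⟧, ∃ g : k⟦X⟧, f = (∑ i : Fin (h + 1),
      PowerSeries.C (PowerSeries.coeff (i : ℕ) f) * PowerSeries.X ^ (i : ℕ)) +
        PowerSeries.X ^ (h + 1) * g := by
    intro f
    have h1 : (PowerSeries.X ^ (h + 1) : k⟦X⟧) ∣ f - ∑ i : Fin (h + 1),
        PowerSeries.C (PowerSeries.coeff (i : ℕ) f) * PowerSeries.X ^ (i : ℕ) := by
      rw [PowerSeries.X_pow_dvd_iff]
      intro j hj
      rw [map_sub, map_sum, sub_eq_zero, Finset.sum_eq_single (⟨j, hj⟩ : Fin (h + 1))]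
      · rw [PowerSeries.coeff_C_mul, PowerSeries.coeff_X_pow_self, mul_one]
      · intro i _ hi
        rw [PowerSeries.coeff_C_mul, PowerSeries.coeff_X_pow, if_neg, mul_zero]
        intro h2
        exact hi (Fin.ext h2.symm)
      · intro h2
        exact absurd (Finset.mem_univ _) h2
    obtain ⟨g, hg⟩ := h1
    exact ⟨g, by rw [← hg]; ring⟩
  choose g hg using fun p => hf (b.repr x p)
  refine ⟨∑ p, g p • b p, ?_⟩
  conv_lhs => rw [← b.sum_repr x]
  rw [Fintype.sum_prod_type, Finset.smul_sum, ← Finset.sum_add_distrib]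
  refine Finset.sum_congr rfl fun p _ => ?_
  conv_lhs => rw [hg p]
  rw [add_smul, Finset.sum_smul, mul_smul]

theorem prod_sub_prod {R : Type} [CommRing R] (I : Ideal R) {κ : Type} (s : Finset κ)
    (f g : κ → R) (h : ∀ i ∈ s, f i - g i ∈ I) : ∏ i ∈ s, f i - ∏ i ∈ s, g i ∈ I := by
  rw [← Ideal.Quotient.eq, map_prod, map_prod]
  exact Finset.prod_congr rfl fun i hi => Ideal.Quotient.eq.2 (h i hi)

variable [FaithfulSMul k⟦X⟧ O]

theorem TExt.rk {m : ℕ} {α T : Type} [Fintype T] {W : (Fin m → α) → k} {h : ℕ}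
    (H : TExt k O T W h) :
    TRk W (Fintype.card T * (Module.finrank k⟦X⟧ O * (h + 1)) ^ m) := by
  classical
  obtain ⟨η, hη⟩ := exists_retraction (k := k) (O := O)
  obtain ⟨C, A, P, hh⟩ := H
  set b := Module.finBasis k⟦X⟧ O with hb
  let Z := Fin (Module.finrank k⟦X⟧ O) × Fin (h + 1)
  let u : Z → O := fun z => (PowerSeries.X ^ (z.2 : ℕ) : k⟦X⟧) • b z.1
  let κ : O → Z → k := fun x z => PowerSeries.coeff (z.2 : ℕ) (b.repr x z.1)
  let τ : O → O := fun x => ∑ z : Z, (PowerSeries.C (κ x z) : k⟦X⟧) • u z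
  let I : Ideal O := Ideal.span {algebraMap k⟦X⟧ O (PowerSeries.X ^ (h + 1))}
  have hτ : ∀ x, x - τ x ∈ I := by
    intro x
    obtain ⟨y, hy⟩ := exists_trunc (k := k) h x
    rw [Ideal.mem_span_singleton]
    refine ⟨y, ?_⟩
    rw [← Algebra.smul_def, sub_eq_iff_eq_add']
    conv_lhs => rw [hy]
    congr 1
    refine Finset.sum_congr rfl fun z _ => ?_
    rw [mul_smul]
  have hI : ∀ x ∈ I, PowerSeries.coeff h (η x) = 0 := by
    intro x hx
    rw [Ideal.mem_span_singleton] at hx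
    obtain ⟨y, rfl⟩ := hx
    rw [← Algebra.smul_def, map_smul, smul_eq_mul, PowerSeries.coeff_X_pow_mul', if_neg (by omega)]
  have hprod : ∀ a : Fin m → O, ∏ j, τ (a j) = ∑ z : Fin m → Z,
      (PowerSeries.C (∏ j, κ (a j) (z j)) : k⟦X⟧) • ∏ j, u (z j) := by
    intro a
    simp only [τ]
    rw [Finset.prod_univ_sum, Fintype.piFinset_univ]
    refine Finset.sum_congr rfl fun z _ => ?_
    rw [map_prod, Finset.prod_smul]
  have hcoeff : ∀ (c : O) (a : Fin m → O), PowerSeries.coeff h (η (c * ∏ j, a j)) =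
      ∑ z : Fin m → Z, PowerSeries.coeff h (η (c * ∏ j, u (z j))) * ∏ j, κ (a j) (z j) := by
    intro c a
    have h1 : c * ∏ j, a j - c * ∏ j, τ (a j) ∈ I := by
      rw [← mul_sub]
      exact I.mul_mem_left _ (prod_sub_prod I _ _ _ fun j _ => hτ _)
    have h2 := hI _ h1
    rw [map_sub, map_sub, sub_eq_zero] at h2
    rw [h2, hprod, Finset.mul_sum, map_sum, map_sum]
    refine Finset.sum_congr rfl fun z _ => ?_
    rw [mul_smul_comm, map_smul, smul_eq_mul, PowerSeries.coeff_C_mul, mul_comm]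
  have := TRk.of_fintype (κ := T × (Fin m → Z)) (T := W)
    (fun t => PowerSeries.coeff h (η (C t.1 * ∏ j, u (t.2 j))))
    (fun t j a => κ (A t.1 j a) (t.2 j)) (fun a => by
      have h1 : PowerSeries.coeff h (η (∑ t, C t * ∏ j, A t j (a j))) = W a := by
        rw [(hh a).1, ← mul_one (algebraMap k⟦X⟧ O _), ← Algebra.smul_def, map_smul, hη,
          smul_eq_mul, mul_one, PowerSeries.coeff_X_pow_mul', if_pos le_rfl, Nat.sub_self,
          PowerSeries.coeff_zero_eq_constantCoeff_apply, (hh a).2]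
      rw [← h1, map_sum, map_sum, Fintype.sum_prod_type]
      exact Finset.sum_congr rfl fun t _ => hcoeff _ _)
  refine this.mono (le_of_eq ?_)
  simp [Z]

theorem TExt.tarank_le {m : ℕ} {α T : Type} [Fintype T] {W : (Fin m → α) → k} {h : ℕ}
    (H : TExt k O T W h) : tarank W ≤ Fintype.card T := by
  refine tarank_le_of_TRk _ m ((Module.finrank k⟦X⟧ O * (h + 1)) ^ m) fun n => ?_
  refine (H.pow (n + 1)).rk.mono ?_
  have h1 : (n + 1) * h + 1 ≤ (h + 1) * (n + 1) := by nlinarith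
  calc Fintype.card (Fin (n + 1) → T) * (Module.finrank k⟦X⟧ O * ((n + 1) * h + 1)) ^ m
      ≤ Fintype.card (Fin (n + 1) → T) * (Module.finrank k⟦X⟧ O * ((h + 1) * (n + 1))) ^ m := by
        gcongr
    _ = _ := by
        rw [Fintype.card_pi, Finset.prod_const, Finset.card_univ, Fintype.card_fin,
          ← mul_assoc, mul_pow]
        ring

end ext

section lower

variable {k : Type} [Field k] {A : Type} [CommRing A] [Algebra k A]

/-- the functional `γ ⊗ ⋯ ⊗ γ` on the tensor power -/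
noncomputable def gpow (γ : A →ₗ[k] k) (n : ℕ) : Pow k A n →ₗ[k] k :=
  PiTensorProduct.lift ((MultilinearMap.mkPiAlgebra k (Fin n) k).compLinearMap fun _ => γ)

theorem gpow_tprod (γ : A →ₗ[k] k) {n : ℕ} (x : Fin n → A) :
    gpow γ n (PiTensorProduct.tprod k x) = ∏ s, γ (x s) := by
  unfold gpow
  rw [PiTensorProduct.lift.tprod]
  simp

/-- **The lower bound.** -/
theorem tarank_tpow_le_of_inSmoothable {m : ℕ} {ι : Type} [Finite ι] (p : Fin m → ι → A)
    (γ : A →ₗ[k] k) {n D : ℕ} (hS : InSmoothable k (Pow k A n) D) :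
    tarank (tpow (fun a : Fin m → ι => γ (∏ j, p j (a j))) n) ≤ D := by
  classical
  have := Fintype.ofFinite ι
  obtain ⟨B, cB, aB, hBfin, ⟨𝒜, cA, aA, hfin, hflat, hred, e, he⟩, hD, f, hf⟩ := hS
  have hfree : Module.Free k⟦X⟧ 𝒜 := Module.free_of_flat_of_isLocalRing
  -- the reduction map
  let ρ : 𝒜 →+* Pow k A n :=
    f.toRingHom.comp (e.toRingHom.comp (Ideal.Quotient.mk _))
  have hρs : Function.Surjective ρ :=
    hf.comp (e.surjective.comp Ideal.Quotient.mk_surjective)
  have hρX : ρ (algebraMap k⟦X⟧ 𝒜 PowerSeries.X) = 0 := by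
    change f (e (Ideal.Quotient.mk _ (algebraMap k⟦X⟧ 𝒜 PowerSeries.X))) = 0
    rw [Ideal.Quotient.eq_zero_iff_mem.mpr (Ideal.mem_span_singleton_self _), map_zero, map_zero]
  have hρC : ∀ c : k, ρ (algebraMap k⟦X⟧ 𝒜 (PowerSeries.C c)) =
      algebraMap k (Pow k A n) c := by
    intro c
    change f (e (Ideal.Quotient.mk _ (algebraMap k⟦X⟧ 𝒜 (PowerSeries.C c)))) = _
    rw [he, f.commutes]
  have hρ : ∀ (r : k⟦X⟧) (x : 𝒜), ρ (r • x) = PowerSeries.constantCoeff r • ρ x := by
    intro r x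
    obtain ⟨r', hr'⟩ := powerSeries_split r
    conv_lhs => rw [hr']
    rw [add_smul, map_add, Algebra.smul_def, Algebra.smul_def, map_mul, map_mul, hρC, map_mul,
      map_mul, hρX, zero_mul, zero_mul, add_zero, ← Algebra.smul_def]
  have hrank : Module.finrank k⟦X⟧ 𝒜 ≤ D := by
    rw [← hD]
    exact finrank_family_le e he
  -- characters
  obtain ⟨T, fT, hT, χ, hχ⟩ := decomp hred
  let L := AlgebraicClosure (LaurentSeries k)
  -- elements
  let I := Fin m × (Fin n → ι)
  choose aa haa using fun z : I => hρs (PiTensorProduct.tprod k fun s => p z.1 (z.2 s))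
  obtain ⟨Ψ, hΨ⟩ := exists_lift_functional ρ hρ (gpow γ n)
  obtain ⟨c, hc⟩ := hχ Ψ
  have hval : ∀ i : Fin m → Fin n → ι, PowerSeries.constantCoeff (Ψ (∏ j, aa (j, i j))) =
      tpow (fun a : Fin m → ι => γ (∏ j, p j (a j))) n i := by
    intro i
    rw [hΨ, map_prod]
    simp only [haa]
    rw [← PiTensorProduct.tprod_prod, gpow_tprod]
    refine Finset.prod_congr rfl fun s _ => ?_
    rw [Finset.prod_apply]
  -- integrality
  have halg1 : Algebra.IsAlgebraic k⟦X⟧ (LaurentSeries k) :=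
    IsLocalization.isAlgebraic _ (nonZeroDivisors k⟦X⟧)
  have halg : Algebra.IsAlgebraic k⟦X⟧ L :=
    Algebra.IsAlgebraic.trans k⟦X⟧ (LaurentSeries k) L
  have hinj : Function.Injective (algebraMap k⟦X⟧ L) := by
    rw [IsScalarTower.algebraMap_eq k⟦X⟧ (LaurentSeries k) L]
    exact (algebraMap (LaurentSeries k) L).injective.comp
      (IsFractionRing.injective k⟦X⟧ (LaurentSeries k))
  obtain ⟨h, hh⟩ := exists_X_pow_integral (k := k) (Finset.univ.image c)
  let S0 : Set L := (Set.range fun z : T × I => χ z.1 (aa z.2)) ∪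
    (Set.range fun t : T => (PowerSeries.X ^ h : k⟦X⟧) • c t)
  have hS0 : S0.Finite := (Set.finite_range _).union (Set.finite_range _)
  have hSint : ∀ z ∈ S0, IsIntegral k⟦X⟧ z := by
    rintro z (⟨w, rfl⟩ | ⟨w, rfl⟩)
    · exact (Algebra.IsIntegral.isIntegral (R := k⟦X⟧) (aa w.2)).map (χ w.1)
    · exact hh _ (Finset.mem_image.mpr ⟨w, Finset.mem_univ _, rfl⟩)
  let O := Algebra.adjoin k⟦X⟧ S0
  have hOfin : Module.Finite k⟦X⟧ O := Module.Finite.iff_fg.mpr (fg_adjoin_of_finite hS0 hSint)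
  have hOinj : Function.Injective (algebraMap k⟦X⟧ O) := by
    intro x y hxy
    exact hinj (congrArg Subtype.val hxy)
  have hOf : FaithfulSMul k⟦X⟧ O := (faithfulSMul_iff_algebraMap_injective _ _).mpr hOinj
  have hOtf : Module.IsTorsionFree k⟦X⟧ O := inferInstance
  have hOfree : Module.Free k⟦X⟧ O := Module.free_of_finite_type_torsion_free'
  have hext : TExt k O T (tpow (fun a : Fin m → ι => γ (∏ j, p j (a j))) n) h := by
    refine ⟨fun t => ⟨(PowerSeries.X ^ h : k⟦X⟧) • c t,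
        Algebra.subset_adjoin (Or.inr ⟨t, rfl⟩)⟩,
      fun t j i => ⟨χ t (aa (j, i)), Algebra.subset_adjoin (Or.inl ⟨(t, (j, i)), rfl⟩)⟩,
      fun i => Ψ (∏ j, aa (j, i j)), ?_⟩
    intro i
    refine ⟨?_, hval i⟩
    apply Subtype.ext
    change O.val (∑ t : T, _) = O.val (algebraMap k⟦X⟧ O _)
    rw [map_sum, AlgHom.commutes, map_mul, hc, Finset.mul_sum]
    refine Finset.sum_congr rfl fun t _ => ?_
    rw [map_mul, map_prod, map_prod]
    change ((PowerSeries.X ^ h : k⟦X⟧) • c t) * ∏ j, χ t (aa (j, i j)) = _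
    rw [Algebra.smul_def]
    ring
  have := hext.tarank_le
  refine this.trans ?_
  exact_mod_cast hT.trans hrank

/-- The asymptotic ranks of the tensors of a finite algebra are lower bounds for the growth of the
degrees of the smoothable schemes which contain its powers. -/
theorem tarank_pow_le_of_inSmoothable {m : ℕ} {ι : Type} [Finite ι] (p : Fin m → ι → A)
    (γ : A →ₗ[k] k) {n D : ℕ} (hn : 1 ≤ n) (hS : InSmoothable k (Pow k A n) D) :
    tarank (fun a : Fin m → ι => γ (∏ j, p j (a j))) ^ n ≤ D :=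
  (tarank_pow_le _ n hn).trans (tarank_tpow_le_of_inSmoothable p γ hS)

end lower

end Pool.Agent.TH671.SD
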