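import Pool.Agent.H826R3.SM.Points

/-!
# Section data from points, without roots of unity

If the ideal of the top degree forms of the ideal of a finite set of points is contained in `I`
then `S / I` is contained in a limit of the scaled sets of points.
-/

set_option autoImplicit false
set_option linter.unusedSectionVars false

namespace Pool.Agent.TH671.SD

open scoped TensorProduct PowerSeries
open Pool.Agent.H826R3.SM
open MvPolynomial

variable {k : Type} [Field k]

/-- the part of degree at most `e` -/
noncomputable def truncL {σ : Type} (e : ℕ) : MvPolynomial σ k →ₗ[k] MvPolynomial σ k :=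
  ∑ i ∈ Finset.range (e + 1), homogeneousComponent i

theorem truncL_apply {σ : Type} (e : ℕ) (F : MvPolynomial σ k) :
    truncL e F = ∑ i ∈ Finset.range (e + 1), homogeneousComponent i F := by
  rw [truncL, LinearMap.sum_apply]

theorem hasSec_of_points' {σ : Type} (I : Ideal (MvPolynomial σ k)) {T : Type} [Fintype T]
    (v : T → σ → k) (N : ℕ)
    (hI : ∀ F : MvPolynomial σ k,
      (∀ e < N, ∃ G : MvPolynomial σ k, (∀ i, e ≤ i → homogeneousComponent i G = 0) ∧
        ∀ t, eval (v t) (homogeneousComponent e F + G) = 0) → F ∈ I) :
    HasSec k (MvPolynomial σ k ⧸ I) T := by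
  classical
  refine ⟨σ, fun s => Ideal.Quotient.mk I (X s),
    fun t i => PowerSeries.C (v t i) * PowerSeries.X, N, ?_, ?_⟩
  · rw [Algebra.adjoin_range_eq_range_aeval, eq_top_iff]
    rintro y -
    obtain ⟨F, rfl⟩ := Ideal.Quotient.mk_surjective y
    refine ⟨F, ?_⟩
    change aeval (fun s => Ideal.Quotient.mkₐ k I (X s)) F = Ideal.Quotient.mkₐ k I F
    rw [← MvPolynomial.comp_aeval_apply, aeval_X_left_apply]
  intro φ
  let μ : MvPolynomial σ k →ₗ[k] k := φ ∘ₗ (Ideal.Quotient.mkₐ k I).toLinearMap
  have hμI : ∀ F ∈ I, μ F = 0 := by
    intro F hF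
    change φ (Ideal.Quotient.mk I F) = 0
    rw [Ideal.Quotient.eq_zero_iff_mem.mpr hF, map_zero]
  -- the components of large degree
  have hlarge : ∀ F : MvPolynomial σ k, (∀ e < N, homogeneousComponent e F = 0) → F ∈ I := by
    intro F hF
    refine hI F fun e he => ⟨0, fun i _ => map_zero _, fun t => ?_⟩
    rw [hF e he, add_zero, map_zero]
  have hcomp : ∀ (F : MvPolynomial σ k) (i j : ℕ), homogeneousComponent i
      (homogeneousComponent j F) = if i = j then homogeneousComponent j F else 0 := by
    intro F i j
    rw [homogeneousComponent_of_mem (m := i) (n := j) (homogeneousComponent_mem j F)]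
  have hev : ∀ e : ℕ, e < N → ∃ c : T → k, ∀ F : MvPolynomial σ k,
      ∑ t, c t * eval (v t) (truncL e F) = μ (homogeneousComponent e F) := by
    intro e he
    let L : T → (MvPolynomial σ k →ₗ[k] k) := fun t =>
      (aeval (R := k) (v t)).toLinearMap ∘ₗ truncL e
    have hμ : μ ∘ₗ homogeneousComponent e ∈ Submodule.span k (Set.range L) := by
      refine mem_span_of_iInf_ker_le_ker fun F hF => ?_
      rw [Submodule.mem_iInf] at hF
      rw [LinearMap.mem_ker, LinearMap.comp_apply]
      refine hμI _ (hI _ fun i hi => ?_)
      rcases eq_or_ne i e with rfl | hne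
      · refine ⟨∑ j ∈ Finset.range i, homogeneousComponent j F, fun j hj => ?_, fun t => ?_⟩
        · rw [map_sum]
          refine Finset.sum_eq_zero fun l hl => ?_
          rw [Finset.mem_range] at hl
          rw [hcomp, if_neg (by omega)]
        · have h1 := hF t
          rw [LinearMap.mem_ker] at h1
          change aeval (v t) (truncL i F) = 0 at h1
          rw [truncL_apply, Finset.sum_range_succ, add_comm] at h1
          rw [hcomp, if_pos rfl, ← coe_aeval_eq_eval]
          exact h1
      · refine ⟨0, fun j _ => map_zero _, fun t => ?_⟩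
        rw [hcomp, if_neg hne, add_zero, map_zero]
    rw [Submodule.mem_span_range_iff_exists_fun] at hμ
    obtain ⟨c, hc⟩ := hμ
    refine ⟨c, fun F => ?_⟩
    have h1 := congrArg (fun l : MvPolynomial σ k →ₗ[k] k => l F) hc
    simp only [LinearMap.sum_apply, LinearMap.smul_apply, smul_eq_mul,
      LinearMap.comp_apply] at h1
    rw [← h1]
    refine Finset.sum_congr rfl fun t _ => ?_
    rfl
  choose c hc using hev
  -- consequences for monomials
  have hmono : ∀ (s : σ →₀ ℕ) (r : k) (e : ℕ) (he : e < N), s.degree ≤ e →
      ∑ t, c e he t * eval (v t) (monomial s r) =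
        if s.degree = e then μ (monomial s r) else 0 := by
    intro s r e he hs
    have hcm : ∀ i : ℕ, homogeneousComponent i (monomial s r : MvPolynomial σ k) =
        if i = s.degree then monomial s r else 0 := fun i => by
      rw [homogeneousComponent_of_mem (m := i) (n := s.degree) (isHomogeneous_monomial r rfl)]
    have h1 : truncL e (monomial s r : MvPolynomial σ k) = monomial s r := by
      rw [truncL_apply]
      simp only [hcm]
      rw [Finset.sum_ite_eq' (Finset.range (e + 1)) s.degree, if_pos
        (Finset.mem_range.2 (by omega))]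
    have h2 := hc e he (monomial s r)
    rw [h1, hcm] at h2
    rw [h2]
    by_cases h : s.degree = e
    · rw [if_pos h, if_pos h.symm]
    · rw [if_neg h, if_neg (fun h' => h h'.symm), map_zero]
  refine ⟨fun t => ∑ e : Fin N, PowerSeries.C (c e e.2 t) * PowerSeries.X ^ (N - (e : ℕ)),
    fun M => ?_⟩
  induction M using MvPolynomial.induction_on' with
  | add x y hx hy =>
    obtain ⟨g1, h1, h1'⟩ := hx
    obtain ⟨g2, h2, h2'⟩ := hy
    refine ⟨g1 + g2, ?_, ?_⟩
    · rw [mul_add, ← h1, ← h2, ← Finset.sum_add_distrib]
      refine Finset.sum_congr rfl fun t _ => ?_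
      rw [map_add, mul_add]
    · rw [map_add, h1', h2', map_add, map_add]
  | monomial s r =>
    set d := s.degree with hd
    have hpt : ∀ t, aeval (fun i => (PowerSeries.C (v t i) * PowerSeries.X : k⟦X⟧))
        (monomial s r) = PowerSeries.C (eval (v t) (monomial s r)) * PowerSeries.X ^ d := by
      intro t
      have := aeval_scaled (v t) 1 s r
      simpa only [one_mul, one_pow] using this
    refine ⟨∑ e : Fin N, if (e : ℕ) ≤ d then
      PowerSeries.C (∑ t, c e e.2 t * eval (v t) (monomial s r)) *
        PowerSeries.X ^ (d - (e : ℕ)) else 0, ?_, ?_⟩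
    · simp only [hpt, Finset.sum_mul]
      rw [Finset.sum_comm, Finset.mul_sum]
      refine Finset.sum_congr rfl fun e _ => ?_
      have h1 : ∑ t, PowerSeries.C (c e e.2 t) * PowerSeries.X ^ (N - (e : ℕ)) *
          (PowerSeries.C (eval (v t) (monomial s r)) * PowerSeries.X ^ d) =
          PowerSeries.C (∑ t, c e e.2 t * eval (v t) (monomial s r)) *
            (PowerSeries.X ^ (N - (e : ℕ)) * PowerSeries.X ^ d : k⟦X⟧) := by
        rw [map_sum, Finset.sum_mul]
        refine Finset.sum_congr rfl fun t _ => ?_
        rw [map_mul]
        ring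
      rw [h1]
      by_cases he : (e : ℕ) ≤ d
      · rw [if_pos he, ← pow_add, mul_left_comm, ← pow_add]
        congr 2
        have := e.2
        omega
      · rw [if_neg he, mul_zero, hmono s r e e.2 (by omega), if_neg (by omega), map_zero,
          zero_mul]
    · have h0 : φ (aeval (R := k) (fun s => Ideal.Quotient.mk I (X s)) (monomial s r)) =
          μ (monomial s r) := by
        change φ _ = φ _
        congr 1
        change aeval (R := k) (fun s => Ideal.Quotient.mkₐ k I (X s)) _ = Ideal.Quotient.mkₐ k I _
        rw [← MvPolynomial.comp_aeval_apply, aeval_X_left_apply]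
      rw [h0, map_sum]
      have hterm : ∀ e : Fin N, PowerSeries.constantCoeff (if (e : ℕ) ≤ d then
          PowerSeries.C (∑ t, c e e.2 t * eval (v t) (monomial s r)) *
            PowerSeries.X ^ (d - (e : ℕ)) else (0 : k⟦X⟧)) =
          if (e : ℕ) = d then μ (monomial s r) else 0 := by
        intro e
        by_cases he : (e : ℕ) = d
        · rw [if_pos he.le, if_pos he, map_mul, PowerSeries.constantCoeff_C, map_pow,
            PowerSeries.constantCoeff_X, show d - (e : ℕ) = 0 by omega, pow_zero, mul_one,
            hmono s r e e.2 (by omega), if_pos he.symm]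
        · rw [if_neg he]
          split_ifs with h2
          · rw [map_mul, map_pow, PowerSeries.constantCoeff_X, zero_pow (by omega), mul_zero]
          · exact map_zero _
      simp only [hterm]
      by_cases hdN : d < N
      · rw [Finset.sum_eq_single (⟨d, hdN⟩ : Fin N)]
        · rw [if_pos rfl]
        · intro e _ he
          rw [if_neg]
          intro h
          exact he (Fin.ext h)
        · intro h
          exact absurd (Finset.mem_univ _) h
      · rw [Finset.sum_eq_zero]
        · symm
          refine hμI _ (hlarge _ fun e he => ?_)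
          rw [homogeneousComponent_of_mem (m := e) (n := s.degree) (isHomogeneous_monomial r rfl),
            if_neg (by omega)]
        · intro e _
          rw [if_neg]
          intro h
          exact hdN (h ▸ e.2)

end Pool.Agent.TH671.SD
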