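import Pool.Agent.H826R3.SM.Finiteness
import Pool.Agent.TH671.SD.KPts
import Pool.Agent.TH671.SD.KAlg

/-!
# Smoothable schemes from decompositions of a tensor

A decomposition of the tensor `T` of order `m` into `r` product tensors gives smoothable schemes of
degree at most `(2 ^ m r) ^ n` which contain the `n`-th power of the apolar scheme of `T`.
-/

set_option autoImplicit false
set_option linter.unusedSectionVars false

namespace Pool.Agent.TH671.SD

open Pool.Agent.H826R3.SM
open MvPolynomial

section mobius

variable {K : Type} [Field K] {m : ℕ}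

/-- indicator vectors -/
def ind (K : Type) [Field K] {m : ℕ} (S : Finset (Fin m)) : Fin m → K :=
  fun j => if j ∈ S then 1 else 0

theorem eval_ind (P : MvPolynomial (Fin m) K) (S : Finset (Fin m)) :
    eval (ind K S) P = ∑ d ∈ P.support.filter (fun d => d.support ⊆ S), coeff d P := by
  classical
  rw [eval_eq', Finset.sum_filter]
  refine Finset.sum_congr rfl fun d _ => ?_
  by_cases h : d.support ⊆ S
  · rw [if_pos h, Finset.prod_eq_one, mul_one]
    intro j _
    by_cases hj : d j = 0
    · rw [hj, pow_zero]
    · have : j ∈ S := h (Finsupp.mem_support_iff.2 hj)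
      rw [ind, if_pos this, one_pow]
  · rw [if_neg h]
    obtain ⟨j, hj, hjS⟩ := Finset.not_subset.1 h
    rw [Finset.prod_eq_zero (Finset.mem_univ j), mul_zero]
    rw [ind, if_neg hjS, zero_pow (Finsupp.mem_support_iff.1 hj)]

theorem sum_support_eq_zero (P : MvPolynomial (Fin m) K) (h : ∀ S, eval (ind K S) P = 0)
    (S : Finset (Fin m)) :
    ∑ d ∈ P.support.filter (fun d => d.support = S), coeff d P = 0 := by
  classical
  induction S using Finset.strongInduction with
  | H S ih =>
    have h1 := h S
    rw [eval_ind] at h1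
    have h2 : ∑ d ∈ P.support.filter (fun d => d.support ⊆ S), coeff d P =
        ∑ S' ∈ S.powerset, ∑ d ∈ P.support.filter (fun d => d.support = S'), coeff d P := by
      rw [← Finset.sum_fiberwise_of_maps_to (g := fun d : Fin m →₀ ℕ => d.support)
        (t := S.powerset)]
      · refine Finset.sum_congr rfl fun S' hS' => ?_
        rw [Finset.filter_filter]
        refine Finset.sum_congr ?_ fun _ _ => rfl
        ext d
        simp only [Finset.mem_filter]
        constructor
        · rintro ⟨h3, -, h4⟩
          exact ⟨h3, h4⟩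
        · rintro ⟨h3, h4⟩
          exact ⟨h3, h4 ▸ Finset.mem_powerset.1 hS', h4⟩
      · intro d hd
        exact Finset.mem_powerset.2 (Finset.mem_filter.1 hd).2
    rw [h2, Finset.sum_eq_single S] at h1
    · exact h1
    · intro S' hS' hne
      exact ih S' (Finset.ssubset_iff_subset_ne.2 ⟨Finset.mem_powerset.1 hS', hne⟩)
    · intro h3
      exact absurd (Finset.mem_powerset_self S) h3

theorem coeff_eq_zero_of_eval (P : MvPolynomial (Fin m) K) (h : ∀ S, eval (ind K S) P = 0)
    (p : Fin m →₀ ℕ) (hp : ∀ j, p j ≤ 1) (hdeg : ∀ d, coeff d P ≠ 0 → d.degree ≤ p.degree) :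
    coeff p P = 0 := by
  classical
  by_contra hne
  have h1 := sum_support_eq_zero P h p.support
  rw [Finset.sum_eq_single p] at h1
  · exact hne h1
  · intro d hd hdp
    exfalso
    rw [Finset.mem_filter, mem_support_iff] at hd
    apply hdp
    have h2 : p ≤ d := by
      intro j
      by_cases hj : p j = 0
      · rw [hj]
        exact Nat.zero_le _
      · have h3 : j ∈ d.support := by
          rw [hd.2]
          exact Finsupp.mem_support_iff.2 hj
        have h4 := Finsupp.mem_support_iff.1 h3
        have h5 := hp j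
        omega
    have h3 := hdeg d hd.1
    obtain ⟨q, rfl⟩ := exists_add_of_le h2
    rw [map_add] at h3
    have h4 : q.degree = 0 := by omega
    rw [Finsupp.degree_eq_zero_iff] at h4
    rw [h4, add_zero]
  · intro h2
    exfalso
    apply h2
    rw [Finset.mem_filter, mem_support_iff]
    exact ⟨hne, rfl⟩

end mobius

section psi

variable {K : Type} [Field K] {m : ℕ} {ι : Type}

/-- restriction to the span of the vectors `x j` -/
noncomputable def psi (x : Fin m → ι → K) :
    MvPolynomial (Fin m × ι) K →ₐ[K] MvPolynomial (Fin m) K :=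
  aeval fun z => C (x z.1 z.2) * X z.1

theorem coeff_psi (x : Fin m → ι → K) (F : MvPolynomial (Fin m × ι) K) (d : Fin m →₀ ℕ) :
    coeff d (psi x F) = coeff d (psi x (homogeneousComponent d.degree F)) := by
  classical
  have hhom : ∀ i, (psi x (homogeneousComponent i F)).IsHomogeneous i := by
    intro i
    have := (homogeneousComponent_isHomogeneous i F).aeval (S := K) (n := 1)
      (fun z : Fin m × ι => (C (x z.1 z.2) * X z.1 : MvPolynomial (Fin m) K)) (fun z => by
        have := (isHomogeneous_C (Fin m) (x z.1 z.2)).mul (isHomogeneous_X K z.1)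
        rwa [zero_add] at this)
    rwa [one_mul] at this
  conv_lhs => rw [← sum_homogeneousComponent F]
  rw [map_sum, coeff_sum]
  by_cases h : d.degree ∈ Finset.range (F.totalDegree + 1)
  · rw [Finset.sum_eq_single d.degree]
    · intro i _ hi
      exact (hhom i).coeff_eq_zero fun h' => hi h'.symm
    · intro h'
      exact absurd h h'
  · rw [Finset.mem_range, not_lt] at h
    rw [homogeneousComponent_eq_zero _ _ (by omega), map_zero, coeff_zero]
    refine Finset.sum_eq_zero fun i hi => ?_
    refine (hhom i).coeff_eq_zero fun h' => ?_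
    rw [Finset.mem_range] at hi
    omega

theorem eval_psi (x : Fin m → ι → K) (S : Finset (Fin m)) (F : MvPolynomial (Fin m × ι) K) :
    eval (ind K S) (psi x F) = eval (fun z => if z.1 ∈ S then x z.1 z.2 else 0) F := by
  classical
  have h1 : (aeval (ind K S)).comp (psi x) =
      aeval (R := K) (fun z : Fin m × ι => if z.1 ∈ S then x z.1 z.2 else (0 : K)) := by
    refine MvPolynomial.algHom_ext fun z => ?_
    rw [AlgHom.comp_apply, psi, aeval_X, map_mul, aeval_X, aeval_X, aeval_C, ind]
    split_ifs <;> simp
  have h2 := congrArg (fun f : MvPolynomial (Fin m × ι) K →ₐ[K] K => f F) h1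
  simp only [AlgHom.comp_apply] at h2
  exact h2

/-- the exponent vector `(1, …, 1)` -/
noncomputable def ones (m : ℕ) : Fin m →₀ ℕ := ∑ j, Finsupp.single j 1

theorem ones_apply (j : Fin m) : ones m j = 1 := by
  classical
  unfold ones
  rw [Finsupp.finsetSum_apply]
  simp [Finsupp.single_apply]

theorem psi_monomial (x : Fin m → ι → K) (d : (Fin m × ι) →₀ ℕ) (r : K) :
    psi x (monomial d r) = monomial (Finsupp.mapDomain Prod.fst d)
      (r * d.prod fun z k => x z.1 z.2 ^ k) := by
  classical
  rw [psi, aeval_monomial]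
  have h1 : (d.prod fun z k => (C (x z.1 z.2) * X z.1 : MvPolynomial (Fin m) K) ^ k) =
      C (d.prod fun z k => x z.1 z.2 ^ k) *
        monomial (Finsupp.mapDomain Prod.fst d) 1 := by
    unfold Finsupp.prod Finsupp.mapDomain Finsupp.sum
    rw [monomial_sum_one, map_prod, ← Finset.prod_mul_distrib]
    refine Finset.prod_congr rfl fun z _ => ?_
    beta_reduce
    rw [mul_pow, map_pow, X_pow_eq_monomial]
  rw [h1, algebraMap_eq, ← mul_assoc, ← map_mul, C_mul_monomial, mul_one]

variable [Fintype ι] [DecidableEq ι]

theorem mapDomain_fst_apply (d : (Fin m × ι) →₀ ℕ) (j : Fin m) :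
    Finsupp.mapDomain Prod.fst d j = ∑ i, d (j, i) := by
  classical
  unfold Finsupp.mapDomain
  rw [Finsupp.sum_apply, Finsupp.sum_fintype _ _ (fun z => by simp), Fintype.sum_prod_type,
    Finset.sum_eq_single j]
  · refine Finset.sum_congr rfl fun i _ => ?_
    rw [Finsupp.single_apply, if_pos rfl]
  · intro b _ hb
    refine Finset.sum_eq_zero fun i _ => ?_
    rw [Finsupp.single_apply, if_neg hb]
  · intro h
    exact absurd (Finset.mem_univ _) h

theorem exists_of_mapDomain {d : (Fin m × ι) →₀ ℕ} (h : Finsupp.mapDomain Prod.fst d = ones m) :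
    ∃ a, d = mexpS Finset.univ a := by
  classical
  have h1 : ∀ j, ∃ i, d (j, i) = 1 ∧ ∀ i', i' ≠ i → d (j, i') = 0 := by
    intro j
    have h2 := DFunLike.congr_fun h j
    rw [mapDomain_fst_apply, ones_apply] at h2
    obtain ⟨i, -, hi⟩ : ∃ i ∈ (Finset.univ : Finset ι), d (j, i) ≠ 0 := by
      refine Finset.exists_ne_zero_of_sum_ne_zero ?_
      rw [h2]
      exact one_ne_zero
    rw [← Finset.add_sum_erase _ _ (Finset.mem_univ i)] at h2
    refine ⟨i, by omega, fun i' hi' => ?_⟩
    have h3 : ∑ x ∈ Finset.univ.erase i, d (j, x) = 0 := by omega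
    rw [Finset.sum_eq_zero_iff] at h3
    exact h3 i' (Finset.mem_erase.2 ⟨hi', Finset.mem_univ _⟩)
  choose a ha ha' using h1
  refine ⟨a, ?_⟩
  ext ⟨j, i⟩
  rw [mexpS_apply]
  by_cases hi : a j = i
  · subst hi
    rw [if_pos ⟨Finset.mem_univ _, rfl⟩, ha]
  · rw [if_neg (fun h' => hi h'.2), ha' j i (fun h' => hi h'.symm)]

theorem mapDomain_mexpS (a : Fin m → ι) :
    Finsupp.mapDomain Prod.fst (mexpS Finset.univ a) = ones m := by
  classical
  ext j
  rw [mapDomain_fst_apply, ones_apply]
  simp [mexpS_apply]

theorem prod_mexpS (x : Fin m → ι → K) (a : Fin m → ι) :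
    ((mexpS Finset.univ a).prod fun z k => x z.1 z.2 ^ k) = ∏ j, x j (a j) := by
  classical
  unfold mexpS
  rw [← Finsupp.prod_finsetSum_index (fun _ => pow_zero _) (fun _ _ _ => pow_add _ _ _)]
  refine Finset.prod_congr rfl fun j _ => ?_
  rw [Finsupp.prod_single_index]
  · exact pow_one _
  · exact pow_zero _

theorem mform_eq {T : (Fin m → ι) → K} {r : ℕ} {c : Fin r → K} {x : Fin r → Fin m → ι → K}
    (hx : ∀ a, T a = ∑ l, c l * ∏ j, x l j (a j)) (F : MvPolynomial (Fin m × ι) K) :
    mform T F = ∑ l, c l * coeff (ones m) (psi (x l) F) := by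
  classical
  induction F using MvPolynomial.induction_on' with
  | add p q hp hq =>
    rw [map_add, hp, hq, ← Finset.sum_add_distrib]
    refine Finset.sum_congr rfl fun l _ => ?_
    rw [map_add, coeff_add, mul_add]
  | monomial d r =>
    simp only [psi_monomial, coeff_monomial]
    by_cases h : Finsupp.mapDomain Prod.fst d = ones m
    · obtain ⟨a, rfl⟩ := exists_of_mapDomain h
      rw [mform_monomial, hx, Finset.sum_mul]
      refine Finset.sum_congr rfl fun l _ => ?_
      rw [if_pos h, prod_mexpS]
      ring
    · rw [mform_monomial_ne]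
      · simp [h]
      · rintro a rfl
        exact h (mapDomain_mexpS a)

/-- The points of a decomposition. -/
theorem hasSec_mform {T : (Fin m → ι) → K} {r : ℕ} (h : TRk T r) :
    HasSec K (ApolarAlg (mform T)) (Fin r × Finset (Fin m)) := by
  classical
  obtain ⟨c, x, hx⟩ := h
  refine hasSec_of_points' (annOf (mform T))
    (fun t z => if z.1 ∈ t.2 then x t.1 z.1 z.2 else 0) (m + 1) fun F hF G => ?_
  rw [mform_eq hx]
  refine Finset.sum_eq_zero fun l _ => ?_
  rw [map_mul, coeff_mul, Finset.sum_eq_zero, mul_zero]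
  intro pq hpq
  rw [Finset.HasAntidiagonal.mem_antidiagonal] at hpq
  have hp : ∀ j, pq.1 j ≤ 1 := by
    intro j
    have h1 := DFunLike.congr_fun hpq j
    rw [Finsupp.add_apply, ones_apply] at h1
    omega
  have hone : (ones m).degree = m := by
    unfold ones
    rw [map_sum]
    simp
  have hd : pq.1.degree < m + 1 := by
    have h1 := congrArg Finsupp.degree hpq
    rw [map_add, hone] at h1
    omega
  obtain ⟨G', hG', hev⟩ := hF _ hd
  have hcc : ∀ i j : ℕ, homogeneousComponent i (homogeneousComponent j F) =
      if i = j then homogeneousComponent j F else 0 := fun i j => by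
    rw [homogeneousComponent_of_mem (m := i) (n := j) (homogeneousComponent_mem j F)]
  have h1 : coeff pq.1 (psi (x l) (homogeneousComponent pq.1.degree F + G')) = 0 := by
    refine coeff_eq_zero_of_eval _ (fun S => ?_) _ hp fun d hdd => ?_
    · rw [eval_psi]
      exact hev (l, S)
    · by_contra hlt
      push Not at hlt
      apply hdd
      rw [coeff_psi, map_add, hcc, if_neg hlt.ne', hG' _ hlt.le, add_zero, map_zero, coeff_zero]
  rw [map_add, coeff_add, coeff_psi (x l) G', hG' _ le_rfl, map_zero, coeff_zero, add_zero] at h1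
  rw [coeff_psi, h1, zero_mul]

theorem inSmoothable_mform {T : (Fin m → ι) → K} {r : ℕ} (h : TRk T r) (n : ℕ) :
    ∃ D ≤ (2 ^ m * r) ^ n, InSmoothable K (Pow K (ApolarAlg (mform T)) n) D := by
  classical
  have hfin := finite_mform T
  obtain ⟨D, hD, hS⟩ := ((hasSec_mform h).pow n).inSmoothable
  refine ⟨D, hD.trans (le_of_eq ?_), hS⟩
  rw [Fintype.card_pi, Finset.prod_const, Finset.card_univ, Fintype.card_fin, Fintype.card_prod,
    Fintype.card_fin, Fintype.card_finset, Fintype.card_fin, mul_comm]

end psi

end Pool.Agent.TH671.SD
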