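import Pool.Agent.H826R3.SM.QOne
import Pool.Agent.TH671.SD.KLow
import Pool.Agent.TH671.SD.KUp
import Pool.Agent.TH671.SH.Thr

/-!
# Smoothability defects of the schemes of multilinear forms and asymptotic ranks
-/

set_option autoImplicit false
set_option linter.unusedSectionVars false

open Filter Topology

namespace Pool.Agent.TH671.SD

open Pool.Agent.H826R3.SM

section main

variable {K : Type} [Field K] {m : ℕ} {ι : Type} [Fintype ι] [DecidableEq ι]

/-- The degree of the scheme `Γ_T`. -/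
noncomputable def dgT (T : (Fin m → ι) → K) : ℕ := Module.finrank K (ApolarAlg (mform T))

/-- The smoothability defect of the `n`-th power of the scheme `Γ_T`. -/
noncomputable def dlT (T : (Fin m → ι) → K) (n : ℕ) : ℕ :=
  defect K (Pow K (ApolarAlg (mform T)) n)

/-- The ratio of Q1 for the scheme `Γ_T`. -/
noncomputable def ratT (T : (Fin m → ι) → K) (ε : ℝ) (n : ℕ) : ℝ :=
  (dlT T n : ℝ) / (dgT T : ℝ) ^ ((1 + ε) * (n : ℝ))

theorem add_defect_le {A : Type} [CommRing A] [Algebra K A] {D : ℕ}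
    (h : InSmoothable K A D) : Module.finrank K A + defect K A ≤ D := by
  have h1 := finrank_le_of_inSmoothable h
  have h2 : D - Module.finrank K A ∈ {e : ℕ | InSmoothable K A (Module.finrank K A + e)} := by
    change InSmoothable K A _
    rwa [Nat.add_sub_cancel' h1]
  have h3 : defect K A ≤ D - Module.finrank K A := Nat.sInf_le h2
  omega

theorem finrank_pow_mform (T : (Fin m → ι) → K) (n : ℕ) :
    Module.finrank K (Pow K (ApolarAlg (mform T)) n) = dgT T ^ n := by
  have := finite_mform T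
  exact finrank_Pow n

theorem upper (T : (Fin m → ι) → K) (n : ℕ) : dgT T ^ n + dlT T n ≤ (2 ^ m * trk T) ^ n := by
  obtain ⟨D, hD, hS⟩ := inSmoothable_mform (trk_spec T) n
  have := add_defect_le hS
  rw [finrank_pow_mform] at this
  exact this.trans hD

theorem inSmoothable_defect (T : (Fin m → ι) → K) (n : ℕ) :
    InSmoothable K (Pow K (ApolarAlg (mform T)) n) (dgT T ^ n + dlT T n) := by
  obtain ⟨D, hD, hS⟩ := inSmoothable_mform (trk_spec T) n
  have := defect_spec hS
  rwa [finrank_pow_mform] at this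

theorem lower (T : (Fin m → ι) → K) {n : ℕ} (hn : 1 ≤ n) :
    tarank T ^ n ≤ (dgT T : ℝ) ^ n + dlT T n := by
  have h1 := tarank_pow_le_of_inSmoothable (fun j a => Ideal.Quotient.mk (annOf (mform T))
    (MvPolynomial.X (j, a))) (mfun T) hn (inSmoothable_defect T n)
  simp only [mfun_prod] at h1
  push_cast at h1
  exact h1

theorem lower_tpow (T : (Fin m → ι) → K) {N n : ℕ} (hN : 1 ≤ N) (hn : 1 ≤ n) :
    tarank T ^ (N * n) ≤ (dgT (tpow T N) : ℝ) ^ n + dlT (tpow T N) n := by
  rw [pow_mul]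
  exact (pow_le_pow_left₀ (pow_nonneg (tarank_nonneg T) N) (tarank_pow_le T N hN) n).trans
    (lower (tpow T N) hn)

theorem eventually_upper (T : (Fin m → ι) → K) {η : ℝ} (hη : 0 < η) :
    ∀ᶠ N : ℕ in atTop, ∀ n : ℕ, (dgT (tpow T N) : ℝ) ^ n + dlT (tpow T N) n ≤
      (tarank T + η) ^ (N * n) := by
  have ha := tarank_nonneg T
  have h1 := trk_growth T (η / 2) (by linarith)
  have hb0 : 0 < tarank T + η / 2 := by linarith
  have hq : 1 < (tarank T + η) / (tarank T + η / 2) := by
    rw [one_lt_div hb0]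
    linarith
  have hev := (tendsto_pow_atTop_atTop_of_one_lt hq).eventually
    (eventually_ge_atTop ((2 : ℝ) ^ m))
  filter_upwards [h1, hev] with N hN1 hN2 n
  rw [div_pow, le_div_iff₀ (by positivity)] at hN2
  have h2 := upper (tpow T N) n
  have h3 : (dgT (tpow T N) : ℝ) ^ n + dlT (tpow T N) n ≤
      ((2 : ℝ) ^ m * (trk (tpow T N) : ℝ)) ^ n := by exact_mod_cast h2
  refine h3.trans ?_
  rw [pow_mul]
  refine pow_le_pow_left₀ (by positivity) ?_ n
  exact (mul_le_mul_of_nonneg_left hN1 (by positivity)).trans hN2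

theorem dgT_tpow_le (T : (Fin m → ι) → K) (N : ℕ) :
    (dgT (tpow T N) : ℝ) ≤ 2 ^ m * (mflat T : ℝ) ^ N := by
  have h1 := finrank_mform_le (tpow T N)
  rw [mflat_tpow] at h1
  have h2 : dgT (tpow T N) ≤ 2 ^ m * mflat T ^ N := h1
  exact_mod_cast h2

theorem le_dgT_tpow (T : (Fin m → ι) → K) (N : ℕ) :
    (mflat T : ℝ) ^ N ≤ (dgT (tpow T N) : ℝ) := by
  have h1 := mflat_le_finrank (tpow T N)
  rw [mflat_tpow] at h1
  have h2 : mflat T ^ N ≤ dgT (tpow T N) := h1
  exact_mod_cast h2

theorem denomT (d ε : ℝ) (hd : 0 ≤ d) (n : ℕ) :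
    d ^ ((1 + ε) * (n : ℝ)) = (d ^ (1 + ε)) ^ n := by
  rw [Real.rpow_mul hd, Real.rpow_natCast]

theorem rat_tendsto_zero (T : (Fin m → ι) → K) (hT : T ≠ 0) {ε : ℝ} (hε : 0 < ε)
    (h : tarank T < (mflat T : ℝ) ^ (1 + ε)) :
    ∀ᶠ N : ℕ in atTop, Tendsto (ratT (tpow T N) ε) atTop (𝓝 0) := by
  have hM : 1 ≤ mflat T := one_le_mflat hT
  set M : ℝ := (mflat T : ℝ) with hMdef
  have hM1 : (1 : ℝ) ≤ M := by rw [hMdef]; exact_mod_cast hM
  have ha := tarank_nonneg T
  obtain ⟨b, hb1, hb2⟩ := exists_between h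
  have hη : 0 < b - tarank T := by linarith
  filter_upwards [eventually_upper T hη, eventually_ge_atTop 1] with N hN hN1
  rw [show tarank T + (b - tarank T) = b by ring] at hN
  have hb0 : 0 < b := lt_of_le_of_lt ha hb1
  have hP : 0 < M ^ (1 + ε) := by positivity
  have hq1 : (b / M ^ (1 + ε)) ^ N < 1 :=
    pow_lt_one₀ (by positivity) ((div_lt_one hP).2 hb2) (by omega)
  have hq0 : 0 ≤ (b / M ^ (1 + ε)) ^ N := by positivity
  refine squeeze_zero (fun n => by unfold ratT; positivity) (fun n => ?_)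
    (tendsto_pow_atTop_nhds_zero_of_lt_one hq0 hq1)
  have h1 : (dlT (tpow T N) n : ℝ) ≤ b ^ (N * n) := by
    refine le_trans ?_ (hN n)
    have : (0 : ℝ) ≤ (dgT (tpow T N) : ℝ) ^ n := by positivity
    linarith
  have h2 : (M ^ (1 + ε)) ^ (N * n) ≤ (dgT (tpow T N) : ℝ) ^ ((1 + ε) * (n : ℝ)) := by
    rw [denomT _ _ (Nat.cast_nonneg _), pow_mul]
    refine pow_le_pow_left₀ (by positivity) ?_ n
    calc (M ^ (1 + ε)) ^ N = (M ^ N) ^ (1 + ε) := by
          rw [← Real.rpow_natCast, ← Real.rpow_natCast, ← Real.rpow_mul (by positivity),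
            ← Real.rpow_mul (by positivity), mul_comm]
      _ ≤ _ := Real.rpow_le_rpow (by positivity) (le_dgT_tpow T N) (by linarith)
  unfold ratT
  rw [← pow_mul, div_pow]
  exact div_le_div₀ (by positivity) h1 (by positivity) h2

theorem rat_tendsto_atTop (T : (Fin m → ι) → K) (hT : T ≠ 0) {ε : ℝ} (hε : 0 < ε)
    (h : (mflat T : ℝ) ^ (1 + ε) < tarank T) :
    ∀ᶠ N : ℕ in atTop, Tendsto (ratT (tpow T N) ε) atTop atTop := by
  have hM : 1 ≤ mflat T := one_le_mflat hT
  set M : ℝ := (mflat T : ℝ) with hMdef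
  have hM1 : (1 : ℝ) ≤ M := by rw [hMdef]; exact_mod_cast hM
  have ha := tarank_nonneg T
  have hP : 0 < M ^ (1 + ε) := by positivity
  have hq : 1 < tarank T / M ^ (1 + ε) := (one_lt_div hP).2 h
  have hev := (tendsto_pow_atTop_atTop_of_one_lt hq).eventually
    (eventually_gt_atTop (((2 : ℝ) ^ m) ^ (1 + ε)))
  filter_upwards [hev, eventually_ge_atTop 1] with N hN hN1
  set d : ℝ := (dgT (tpow T N) : ℝ) with hd
  have hd1 : 1 ≤ d := by
    have h1 := le_dgT_tpow T N
    rw [← hMdef, ← hd] at h1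
    exact (one_le_pow₀ hM1).trans h1
  have hde : d ^ (1 + ε) ≤ ((2 : ℝ) ^ m) ^ (1 + ε) * (M ^ (1 + ε)) ^ N := by
    calc d ^ (1 + ε) ≤ (2 ^ m * M ^ N) ^ (1 + ε) :=
          Real.rpow_le_rpow (by positivity) (dgT_tpow_le T N) (by linarith)
      _ = ((2 : ℝ) ^ m) ^ (1 + ε) * (M ^ (1 + ε)) ^ N := by
          rw [Real.mul_rpow (by positivity) (by positivity), ← Real.rpow_natCast M,
            ← Real.rpow_natCast (M ^ (1 + ε)), ← Real.rpow_mul (by positivity),
            ← Real.rpow_mul (by positivity), mul_comm (N : ℝ)]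
  have hdpos : 0 < d ^ (1 + ε) := by positivity
  have hx : 1 < tarank T ^ N / d ^ (1 + ε) := by
    rw [one_lt_div hdpos]
    refine lt_of_le_of_lt hde ?_
    rw [div_pow, lt_div_iff₀ (by positivity)] at hN
    exact hN
  have hlim := tendsto_atTop_add_const_right atTop (-1 : ℝ)
    (tendsto_pow_atTop_atTop_of_one_lt hx)
  refine tendsto_atTop_mono' atTop ?_ hlim
  filter_upwards [eventually_ge_atTop 1] with n hn
  have h1 := lower_tpow T hN1 hn
  rw [← hd] at h1
  have hdd : d ^ n ≤ (d ^ (1 + ε)) ^ n := by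
    refine pow_le_pow_left₀ (by positivity) ?_ n
    conv_lhs => rw [← Real.rpow_one d]
    exact Real.rpow_le_rpow_of_exponent_le hd1 (by linarith)
  unfold ratT
  rw [denomT _ _ (Nat.cast_nonneg _), ← hd, div_pow, le_div_iff₀ (by positivity), add_mul,
    div_mul_cancel₀ _ (by positivity), ← pow_mul]
  linarith

/-- **The criterion.** -/
theorem minimal_iff (T : (Fin m → ι) → K) (hT : 2 ≤ mflat T) :
    tarank T = mflat T ↔
      ∀ ε : ℝ, 0 < ε → ∀ᶠ N : ℕ in atTop, Tendsto (ratT (tpow T N) ε) atTop (𝓝 0) := by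
  have hT0 : T ≠ 0 := by
    rintro rfl
    have : mflat (0 : (Fin m → ι) → K) = 0 := by
      refine Nat.eq_zero_of_le_zero (Finset.sup_le fun S _ => ?_)
      have h0 : flat (0 : (Fin m → ι) → K) S = 0 := rfl
      rw [h0, Matrix.rank_zero]
    omega
  have hM2 : (2 : ℝ) ≤ (mflat T : ℝ) := by exact_mod_cast hT
  constructor
  · intro h ε hε
    refine rat_tendsto_zero T hT0 hε ?_
    rw [h]
    conv_lhs => rw [← Real.rpow_one (mflat T : ℝ)]
    exact Real.rpow_lt_rpow_of_exponent_lt (by linarith) (by linarith)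
  · intro h
    refine le_antisymm ?_ (mflat_le_tarank T)
    by_contra hcon
    push Not at hcon
    have hc : Tendsto (fun ε : ℝ => (mflat T : ℝ) ^ (1 + ε)) (𝓝[>] 0) (𝓝 (mflat T : ℝ)) := by
      have h1 : ContinuousAt (fun ε : ℝ => (mflat T : ℝ) ^ (1 + ε)) 0 := by
        refine ContinuousAt.rpow continuousAt_const (by fun_prop) (Or.inl (by positivity))
      have h2 := h1.tendsto
      rw [add_zero, Real.rpow_one] at h2
      exact h2.mono_left nhdsWithin_le_nhds
    obtain ⟨ε, hε1, hε2⟩ := ((hc.eventually (gt_mem_nhds hcon)).and self_mem_nhdsWithin).exists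
    have hε : 0 < ε := hε2
    obtain ⟨N, hN1, hN2⟩ := ((h ε hε).and (rat_tendsto_atTop T hT0 hε hε1)).exists
    exact not_tendsto_nhds_of_tendsto_atTop hN2 0 hN1

/-- Q1 for the scheme `Γ_T` bounds the asymptotic rank of `T` by the degree. -/
theorem tarank_le_of_QOne (T : (Fin m → ι) → K) (hT : T ≠ 0)
    (hQ : QOne K (ApolarAlg (mform T))) : tarank T ≤ dgT T := by
  have hM : 1 ≤ mflat T := one_le_mflat hT
  have hd1 : (1 : ℝ) ≤ (dgT T : ℝ) := by exact_mod_cast hM.trans (mflat_le_finrank T)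
  set d : ℝ := (dgT T : ℝ) with hd
  have key : ∀ ε : ℝ, 0 < ε → tarank T ≤ d ^ (1 + ε) := by
    intro ε hε
    obtain ⟨B, hB⟩ := (hQ ε hε).bddAbove_range
    refine Pool.Agent.TH671.SH.le_of_pow_le (c := 1 + B) (by positivity) fun n hn => ?_
    have h1 := lower T hn
    rw [← hd] at h1
    have h2 : (dlT T n : ℝ) / (d ^ (1 + ε)) ^ n ≤ B := by
      have h3 := hB ⟨n, rfl⟩
      beta_reduce at h3
      rw [denomT _ _ (Nat.cast_nonneg _)] at h3
      exact h3
    rw [div_le_iff₀ (by positivity)] at h2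
    have hdd : d ^ n ≤ (d ^ (1 + ε)) ^ n := by
      refine pow_le_pow_left₀ (by positivity) ?_ n
      conv_lhs => rw [← Real.rpow_one d]
      exact Real.rpow_le_rpow_of_exponent_le hd1 (by linarith)
    rw [add_mul, one_mul]
    linarith
  have hc : Tendsto (fun ε : ℝ => d ^ (1 + ε)) (𝓝[>] 0) (𝓝 d) := by
    have h1 : ContinuousAt (fun ε : ℝ => d ^ (1 + ε)) 0 := by
      refine ContinuousAt.rpow continuousAt_const (by fun_prop) (Or.inl (by positivity))
    have h2 := h1.tendsto
    rw [add_zero, Real.rpow_one] at h2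
    exact h2.mono_left nhdsWithin_le_nhds
  refine ge_of_tendsto hc ?_
  filter_upwards [self_mem_nhdsWithin] with ε hε
  exact key ε hε

/-- Q1 for infinitely many Kronecker powers of `T` forces the asymptotic rank of `T` to be the
largest rank of a flattening. -/
theorem minimal_of_QOne (T : (Fin m → ι) → K) (hT : T ≠ 0)
    (hQ : ∃ᶠ N : ℕ in atTop, QOne K (ApolarAlg (mform (tpow T N)))) :
    tarank T = mflat T := by
  refine le_antisymm ?_ (mflat_le_tarank T)
  have hM : 1 ≤ mflat T := one_le_mflat hT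
  have hM1 : (1 : ℝ) ≤ (mflat T : ℝ) := by exact_mod_cast hM
  by_contra hcon
  push Not at hcon
  have hq : 1 < tarank T / (mflat T : ℝ) := (one_lt_div (by linarith)).2 hcon
  have hev := (tendsto_pow_atTop_atTop_of_one_lt hq).eventually
    (eventually_gt_atTop ((2 : ℝ) ^ m))
  obtain ⟨N, hQN, hN, hN1⟩ := (hQ.and_eventually (hev.and (eventually_ge_atTop 1))).exists
  have hne : tpow T N ≠ 0 := by
    intro h0
    have h1 : 1 ≤ mflat (tpow T N) := by
      rw [mflat_tpow]
      exact Nat.one_le_pow _ _ hM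
    rw [h0] at h1
    have : mflat (0 : (Fin m → Fin N → ι) → K) = 0 := by
      refine Nat.eq_zero_of_le_zero (Finset.sup_le fun S _ => ?_)
      have h0 : flat (0 : (Fin m → Fin N → ι) → K) S = 0 := rfl
      rw [h0, Matrix.rank_zero]
    omega
  have h1 := tarank_le_of_QOne (tpow T N) hne hQN
  have h2 := (tarank_pow_le T N hN1).trans (h1.trans (dgT_tpow_le T N))
  rw [div_pow, lt_div_iff₀ (by positivity)] at hN
  linarith

end main

/-- **Q1 implies that the asymptotic rank of every tensor of every order is the largest rank of a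
flattening.** -/
theorem minimal_of_Q1 (K : Type) [Field K]
    (hQ : ∀ (A : Type) [CommRing A] [Algebra K A] [Module.Finite K A] [Nontrivial A], QOne K A)
    {m : ℕ} {ι : Type} [Fintype ι] [DecidableEq ι] (T : (Fin m → ι) → K) (hT : T ≠ 0) :
    tarank T = mflat T := by
  refine minimal_of_QOne T hT (Filter.Frequently.of_forall fun N => ?_)
  have hfin := finite_mform (tpow T N)
  have h1 : 1 ≤ mflat (tpow T N) := by
    rw [mflat_tpow]
    exact Nat.one_le_pow _ _ (one_le_mflat hT)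
  have h2 : 0 < Module.finrank K (ApolarAlg (mform (tpow T N))) :=
    lt_of_lt_of_le h1 (mflat_le_finrank (tpow T N))
  have hnt : Nontrivial (ApolarAlg (mform (tpow T N))) :=
    Module.nontrivial_of_finrank_pos (R := K) h2
  exact hQ _

end Pool.Agent.TH671.SD
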